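import Mathlib

/-!
# Hull size along the geometric homomorphism order of `K_n`  (MP_1038e0_co, Q1: yes)

If `p` and `q` are geometric realizations of `K_n`, there is a vertex-injective geometric
homomorphism from `p` to `q`, and the two are not geometrically isomorphic, then `p` has strictly
fewer vertices on its convex hull than `q`.

Idea: identify the vertices through the homomorphism `f`, so that every crossing of `p` is a
crossing of `q`; suppose `q` has at most as many hull vertices as `p`.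
* If `p` has at least four hull vertices, every hull vertex of `p` is one of `q` (`Sys.L1`), so the
  hull vertex sets agree, and then all orientations of triples agree up to one global flip
  (`Sys.L2`).
* If `q` has three hull vertices, then the two realizations have the same quadruples in convex
  position (`Sys.L3`).
In both cases `f` is an isomorphism.  All statements about orientations are statements about
Boolean sign systems (`Sys`) satisfying the four point and the five point relations.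
-/

set_option autoImplicit false

namespace Pool.Agent.Results.MP_1038e0_co.HullSize

/-! ### Abstract sign systems -/

def D4 {V : Type} (a b c d : V) : Prop := a ≠ b ∧ a ≠ c ∧ a ≠ d ∧ b ≠ c ∧ b ≠ d ∧ c ≠ d

def D5 {V : Type} (a b c d e : V) : Prop :=
  a ≠ b ∧ a ≠ c ∧ a ≠ d ∧ a ≠ e ∧ b ≠ c ∧ b ≠ d ∧ b ≠ e ∧ c ≠ d ∧ c ≠ e ∧ d ≠ e

/-- not all three equal -/
def n3 (x y z : Bool) : Bool := !((x == y) && (y == z))

/-- the terms `bcd, -acd, abd, -abc` are not all equal -/
def fo (bcd acd abd abc : Bool) : Bool := !((bcd == !acd) && (bcd == abd) && (bcd == !abc))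

def ok5 (abc abd abe acd ace ade bcd bce bde cde : Bool) : Bool :=
  fo bcd acd abd abc && (fo bce ace abe abc && (fo bde ade abe abd && (fo cde ade ace acd &&
  (fo cde bde bce bcd && (n3 (abc == ade) (!(abd == ace)) (abe == acd) &&
  (n3 ((!abc) == bde) (!((!abd) == bce)) ((!abe) == bcd) &&
  (n3 (abc == cde) (!((!acd) == (!bce))) ((!ace) == (!bcd)) &&
  (n3 (abd == !cde) (!(acd == (!bde))) ((!ade) == bcd) &&
  n3 (abe == cde) (!(ace == bde)) (ade == bce)))))))))

structure Sys (V : Type) where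
  s : V → V → V → Bool
  swap : ∀ a b c, a ≠ b → a ≠ c → b ≠ c → s a c b = !s a b c
  rot : ∀ a b c, a ≠ b → a ≠ c → b ≠ c → s b c a = s a b c
  four : ∀ a b c d, D4 a b c d → fo (s b c d) (s a c d) (s a b d) (s a b c) = true
  gp : ∀ a b c d e, D5 a b c d e →
    n3 (s a b c == s a d e) (!(s a b d == s a c e)) (s a b e == s a c d) = true

namespace Sys

variable {V : Type} (S : Sys V)

/-- the edges `ab` and `cd` cross -/
def cross (a b c d : V) : Prop := S.s a b c ≠ S.s a b d ∧ S.s c d a ≠ S.s c d b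

/-- `x` is inside the triangle `abc` -/
def ins (x a b c : V) : Prop :=
  S.s x a b = S.s a b c ∧ S.s x b c = S.s a b c ∧ S.s x c a = S.s a b c

/-- parity of the quadruple: `true` iff it is not in convex position -/
def w (a b c d : V) : Bool := S.s b c d ^^ S.s a c d ^^ S.s a b d ^^ S.s a b c

def p3 (a b c : V) : Prop := S.s b c a = S.s a b c ∧ S.s c a b = S.s a b c ∧
  S.s a c b = (!S.s a b c) ∧ S.s b a c = (!S.s a b c) ∧ S.s c b a = !S.s a b c

theorem perm3 {a b c : V} (h1 : a ≠ b) (h2 : a ≠ c) (h3 : b ≠ c) : S.p3 a b c := by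
  have e1 := S.rot a b c h1 h2 h3
  have e2 := S.rot b c a h3 h1.symm h2.symm
  have e3 := S.swap a b c h1 h2 h3
  have e4 := S.swap b c a h3 h1.symm h2.symm
  have e5 := S.swap c a b h2.symm h3.symm h1
  refine ⟨e1, ?_, e3, ?_, ?_⟩
  · rw [e2, e1]
  · rw [e4, e1]
  · rw [e5, e2, e1]

theorem pm4 {a b c d : V} (h : D4 a b c d) :
    (S.p3 a b c ∧ S.p3 a b d ∧ S.p3 a c d ∧ S.p3 b c d) ∧
    fo (S.s b c d) (S.s a c d) (S.s a b d) (S.s a b c) = true := by
  obtain ⟨h1, h2, h3, h4, h5, h6⟩ := h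
  exact ⟨⟨S.perm3 h1 h2 h4, S.perm3 h1 h3 h5, S.perm3 h2 h3 h6, S.perm3 h4 h5 h6⟩,
    S.four a b c d ⟨h1, h2, h3, h4, h5, h6⟩⟩

theorem pm5 {a b c d e : V} (h : D5 a b c d e) :
    (S.p3 a b c ∧ S.p3 a b d ∧ S.p3 a b e ∧ S.p3 a c d ∧ S.p3 a c e ∧ S.p3 a d e ∧
      S.p3 b c d ∧ S.p3 b c e ∧ S.p3 b d e ∧ S.p3 c d e) ∧
    ok5 (S.s a b c) (S.s a b d) (S.s a b e) (S.s a c d) (S.s a c e) (S.s a d e)
      (S.s b c d) (S.s b c e) (S.s b d e) (S.s c d e) = true := by
  obtain ⟨h1, h2, h3, h4, h5, h6, h7, h8, h9, h10⟩ := h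
  have P : (S.p3 a b c ∧ S.p3 a b d ∧ S.p3 a b e ∧ S.p3 a c d ∧ S.p3 a c e ∧ S.p3 a d e ∧
      S.p3 b c d ∧ S.p3 b c e ∧ S.p3 b d e ∧ S.p3 c d e) :=
    ⟨S.perm3 h1 h2 h5, S.perm3 h1 h3 h6, S.perm3 h1 h4 h7, S.perm3 h2 h3 h8,
    S.perm3 h2 h4 h9, S.perm3 h3 h4 h10, S.perm3 h5 h6 h8, S.perm3 h5 h7 h9,
    S.perm3 h6 h7 h10, S.perm3 h8 h9 h10⟩
  refine ⟨P, ?_⟩
  have q1 := S.four a b c d ⟨h1, h2, h3, h5, h6, h8⟩
  have q2 := S.four a b c e ⟨h1, h2, h4, h5, h7, h9⟩
  have q3 := S.four a b d e ⟨h1, h3, h4, h6, h7, h10⟩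
  have q4 := S.four a c d e ⟨h2, h3, h4, h8, h9, h10⟩
  have q5 := S.four b c d e ⟨h5, h6, h7, h8, h9, h10⟩
  have r1 := S.gp a b c d e ⟨h1, h2, h3, h4, h5, h6, h7, h8, h9, h10⟩
  have r2 := S.gp b a c d e ⟨h1.symm, h5, h6, h7, h2, h3, h4, h8, h9, h10⟩
  have r3 := S.gp c a b d e ⟨h2.symm, h5.symm, h8, h9, h1, h3, h4, h6, h7, h10⟩
  have r4 := S.gp d a b c e ⟨h3.symm, h6.symm, h8.symm, h10, h1, h2, h4, h5, h7, h9⟩
  have r5 := S.gp e a b c d ⟨h4.symm, h7.symm, h9.symm, h10.symm, h1, h2, h3, h5, h6, h8⟩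
  unfold p3 at P
  simp only [P] at r2 r3 r4 r5
  simp only [ok5, q1, q2, q3, q4, q5, r1, r2, r3, r4, r5, Bool.and_self]

theorem w_cross {a b c d : V} (h : D4 a b c d) : S.cross a b c d → S.w a b c d = false := by
  obtain ⟨P, Q⟩ := Sys.pm4 S h
  unfold Sys.p3 at P
  revert Q
  simp only [Sys.cross, Sys.ins, Sys.w, P]
  generalize Sys.s S a b c = v1
  generalize Sys.s S a b d = v2
  generalize Sys.s S a c d = v3
  generalize Sys.s S b c d = v4
  clear P
  revert v1 v2 v3 v4
  decide +kernel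

theorem of_w {a b c d : V} (h : D4 a b c d) :
    S.w a b c d = false → S.cross a b c d ∨ S.cross a c b d ∨ S.cross a d b c := by
  obtain ⟨P, Q⟩ := Sys.pm4 S h
  unfold Sys.p3 at P
  revert Q
  simp only [Sys.cross, Sys.ins, Sys.w, P]
  generalize Sys.s S a b c = v1
  generalize Sys.s S a b d = v2
  generalize Sys.s S a c d = v3
  generalize Sys.s S b c d = v4
  clear P
  revert v1 v2 v3 v4
  decide +kernel

theorem of_not_w {a b c d : V} (h : D4 a b c d) :
    S.w a b c d = true → S.ins a b c d ∨ S.ins b a c d ∨ S.ins c a b d ∨ S.ins d a b c := by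
  obtain ⟨P, Q⟩ := Sys.pm4 S h
  unfold Sys.p3 at P
  revert Q
  simp only [Sys.cross, Sys.ins, Sys.w, P]
  generalize Sys.s S a b c = v1
  generalize Sys.s S a b d = v2
  generalize Sys.s S a c d = v3
  generalize Sys.s S b c d = v4
  clear P
  revert v1 v2 v3 v4
  decide +kernel

theorem w_ins {a b c d : V} (h : D4 a b c d) : S.ins a b c d → S.w a b c d = true := by
  obtain ⟨P, Q⟩ := Sys.pm4 S h
  unfold Sys.p3 at P
  revert Q
  simp only [Sys.cross, Sys.ins, Sys.w, P]
  generalize Sys.s S a b c = v1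
  generalize Sys.s S a b d = v2
  generalize Sys.s S a c d = v3
  generalize Sys.s S b c d = v4
  clear P
  revert v1 v2 v3 v4
  decide +kernel

theorem w1 {a b c d : V} (h : D4 a b c d) : S.w b a c d = S.w a b c d := by
  obtain ⟨P, Q⟩ := Sys.pm4 S h
  unfold Sys.p3 at P
  revert Q
  simp only [Sys.cross, Sys.ins, Sys.w, P]
  generalize Sys.s S a b c = v1
  generalize Sys.s S a b d = v2
  generalize Sys.s S a c d = v3
  generalize Sys.s S b c d = v4
  clear P
  revert v1 v2 v3 v4
  decide +kernel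

theorem w2 {a b c d : V} (h : D4 a b c d) : S.w a c b d = S.w a b c d := by
  obtain ⟨P, Q⟩ := Sys.pm4 S h
  unfold Sys.p3 at P
  revert Q
  simp only [Sys.cross, Sys.ins, Sys.w, P]
  generalize Sys.s S a b c = v1
  generalize Sys.s S a b d = v2
  generalize Sys.s S a c d = v3
  generalize Sys.s S b c d = v4
  clear P
  revert v1 v2 v3 v4
  decide +kernel

theorem w3 {a b c d : V} (h : D4 a b c d) : S.w a b d c = S.w a b c d := by
  obtain ⟨P, Q⟩ := Sys.pm4 S h
  unfold Sys.p3 at P
  revert Q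
  simp only [Sys.cross, Sys.ins, Sys.w, P]
  generalize Sys.s S a b c = v1
  generalize Sys.s S a b d = v2
  generalize Sys.s S a c d = v3
  generalize Sys.s S b c d = v4
  clear P
  revert v1 v2 v3 v4
  decide +kernel

theorem cross_perm {a b c d : V} (h : D4 a b c d) :
    S.cross a b c d → S.cross b a c d ∧ S.cross a b d c ∧ S.cross c d a b := by
  obtain ⟨P, Q⟩ := Sys.pm4 S h
  unfold Sys.p3 at P
  revert Q
  simp only [Sys.cross, Sys.ins, Sys.w, P]
  generalize Sys.s S a b c = v1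
  generalize Sys.s S a b d = v2
  generalize Sys.s S a c d = v3
  generalize Sys.s S b c d = v4
  clear P
  revert v1 v2 v3 v4
  decide +kernel

theorem cross_uniq {a b c d : V} (h : D4 a b c d) :
    S.cross a b c d → ¬ S.cross a c b d ∧ ¬ S.cross a d b c := by
  obtain ⟨P, Q⟩ := Sys.pm4 S h
  unfold Sys.p3 at P
  revert Q
  simp only [Sys.cross, Sys.ins, Sys.w, P]
  generalize Sys.s S a b c = v1
  generalize Sys.s S a b d = v2
  generalize Sys.s S a c d = v3
  generalize Sys.s S b c d = v4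
  clear P
  revert v1 v2 v3 v4
  decide +kernel

theorem ins_perm {x a b c : V} (h : D4 x a b c) :
    S.ins x a b c → S.ins x b c a ∧ S.ins x b a c := by
  obtain ⟨P, Q⟩ := Sys.pm4 S h
  unfold Sys.p3 at P
  revert Q
  simp only [Sys.cross, Sys.ins, Sys.w, P]
  generalize Sys.s S x a b = v1
  generalize Sys.s S x a c = v2
  generalize Sys.s S x b c = v3
  generalize Sys.s S a b c = v4
  clear P
  revert v1 v2 v3 v4
  decide +kernel

theorem H4 {a b c d : V} (h : D4 a b c d) :
    S.s a b c ≠ S.s a b d → ¬ S.ins a b c d → ¬ S.ins b a c d → S.cross a b c d := by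
  obtain ⟨P, Q⟩ := Sys.pm4 S h
  unfold Sys.p3 at P
  revert Q
  simp only [Sys.cross, Sys.ins, Sys.w, P]
  generalize Sys.s S a b c = v1
  generalize Sys.s S a b d = v2
  generalize Sys.s S a c d = v3
  generalize Sys.s S b c d = v4
  clear P
  revert v1 v2 v3 v4
  decide +kernel

theorem O4 {y p q r : V} (h : D4 y p q r) : S.ins y p q r → S.s y r p ≠ S.s y r q := by
  obtain ⟨P, Q⟩ := Sys.pm4 S h
  unfold Sys.p3 at P
  revert Q
  simp only [Sys.cross, Sys.ins, Sys.w, P]
  generalize Sys.s S y p q = v1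
  generalize Sys.s S y p r = v2
  generalize Sys.s S y q r = v3
  generalize Sys.s S p q r = v4
  clear P
  revert v1 v2 v3 v4
  decide +kernel

theorem Q12 {x y a b : V} (h : D4 x y a b) :
    S.w x y a b = true → ¬ S.ins a x y b → ¬ S.ins b x y a → S.s x y a ≠ S.s x y b := by
  obtain ⟨P, Q⟩ := Sys.pm4 S h
  unfold Sys.p3 at P
  revert Q
  simp only [Sys.cross, Sys.ins, Sys.w, P]
  generalize Sys.s S x y a = v1
  generalize Sys.s S x y b = v2
  generalize Sys.s S x a b = v3
  generalize Sys.s S y a b = v4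
  clear P
  revert v1 v2 v3 v4
  decide +kernel

theorem Q13 {x y z b : V} (h : D4 x y z b) :
    S.w x y z b = true → ¬ S.ins b x y z → S.s y z b = S.s x y z →
      S.s x y b = (!S.s x y z) ∧ S.s x z b = S.s x y z := by
  obtain ⟨P, Q⟩ := Sys.pm4 S h
  unfold Sys.p3 at P
  revert Q
  simp only [Sys.cross, Sys.ins, Sys.w, P]
  generalize Sys.s S x y z = v1
  generalize Sys.s S x y b = v2
  generalize Sys.s S x z b = v3
  generalize Sys.s S y z b = v4
  clear P
  revert v1 v2 v3 v4
  decide +kernel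

theorem Q13' {x y z b : V} (h : D4 x y z b) :
    S.w x y z b = true → ¬ S.ins b x y z → S.s z x b = S.s x y z →
      S.s x y b = (!S.s x y z) ∧ S.s x z b = (!S.s x y z) := by
  obtain ⟨P, Q⟩ := Sys.pm4 S h
  unfold Sys.p3 at P
  revert Q
  simp only [Sys.cross, Sys.ins, Sys.w, P]
  generalize Sys.s S x y z = v1
  generalize Sys.s S x y b = v2
  generalize Sys.s S x z b = v3
  generalize Sys.s S y z b = v4
  clear P
  revert v1 v2 v3 v4
  decide +kernel

theorem Q14 {x y z u : V} (h : D4 x y z u) :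
    S.w x y z u = false → ¬ S.ins u x y z → S.s y z u ≠ S.s x y z →
      S.s z x u = S.s x y z ∧ S.s x y u = S.s x y z := by
  obtain ⟨P, Q⟩ := Sys.pm4 S h
  unfold Sys.p3 at P
  revert Q
  simp only [Sys.cross, Sys.ins, Sys.w, P]
  generalize Sys.s S x y z = v1
  generalize Sys.s S x y u = v2
  generalize Sys.s S x z u = v3
  generalize Sys.s S y z u = v4
  clear P
  revert v1 v2 v3 v4
  decide +kernel

theorem T4 {x p q r d : V} (h : D5 x p q r d) :
    S.ins x p q r → S.ins x d p q ∨ S.ins x d q r ∨ S.ins x d r p := by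
  obtain ⟨P, Q⟩ := Sys.pm5 S h
  unfold Sys.p3 at P
  revert Q
  simp only [Sys.cross, Sys.ins, Sys.w, P]
  generalize Sys.s S x p q = v1
  generalize Sys.s S x p r = v2
  generalize Sys.s S x p d = v3
  generalize Sys.s S x q r = v4
  generalize Sys.s S x q d = v5
  generalize Sys.s S x r d = v6
  generalize Sys.s S p q r = v7
  generalize Sys.s S p q d = v8
  generalize Sys.s S p r d = v9
  generalize Sys.s S q r d = v10
  clear P
  revert v1 v2 v3 v4 v5 v6 v7 v8 v9 v10
  decide +kernel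

theorem T5 {x a b c e : V} (h : D5 x a b c e) :
    S.ins x a b c → ¬ (S.s x e a = S.s x e b ∧ S.s x e b = S.s x e c) := by
  obtain ⟨P, Q⟩ := Sys.pm5 S h
  unfold Sys.p3 at P
  revert Q
  simp only [Sys.cross, Sys.ins, Sys.w, P]
  generalize Sys.s S x a b = v1
  generalize Sys.s S x a c = v2
  generalize Sys.s S x a e = v3
  generalize Sys.s S x b c = v4
  generalize Sys.s S x b e = v5
  generalize Sys.s S x c e = v6
  generalize Sys.s S a b c = v7
  generalize Sys.s S a b e = v8
  generalize Sys.s S a c e = v9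
  generalize Sys.s S b c e = v10
  clear P
  revert v1 v2 v3 v4 v5 v6 v7 v8 v9 v10
  decide +kernel

theorem T6 {x a b c e : V} (h : D5 x a b c e) :
    S.w a b c e = false → S.ins x a b c → S.ins x a b e → ¬ (S.ins x b c e ∨ S.ins x a c e) := by
  obtain ⟨P, Q⟩ := Sys.pm5 S h
  unfold Sys.p3 at P
  revert Q
  simp only [Sys.cross, Sys.ins, Sys.w, P]
  generalize Sys.s S x a b = v1
  generalize Sys.s S x a c = v2
  generalize Sys.s S x a e = v3
  generalize Sys.s S x b c = v4
  generalize Sys.s S x b e = v5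
  generalize Sys.s S x c e = v6
  generalize Sys.s S a b c = v7
  generalize Sys.s S a b e = v8
  generalize Sys.s S a c e = v9
  generalize Sys.s S b c e = v10
  clear P
  revert v1 v2 v3 v4 v5 v6 v7 v8 v9 v10
  decide +kernel

theorem T7 {y p q r e : V} (h : D5 y p q r e) :
    S.ins y p q r → ¬ (S.cross y e p q ∧ S.cross y e p r) := by
  obtain ⟨P, Q⟩ := Sys.pm5 S h
  unfold Sys.p3 at P
  revert Q
  simp only [Sys.cross, Sys.ins, Sys.w, P]
  generalize Sys.s S y p q = v1
  generalize Sys.s S y p r = v2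
  generalize Sys.s S y p e = v3
  generalize Sys.s S y q r = v4
  generalize Sys.s S y q e = v5
  generalize Sys.s S y r e = v6
  generalize Sys.s S p q r = v7
  generalize Sys.s S p q e = v8
  generalize Sys.s S p r e = v9
  generalize Sys.s S q r e = v10
  clear P
  revert v1 v2 v3 v4 v5 v6 v7 v8 v9 v10
  decide +kernel

theorem par5 (a b c d e : V) :
    (S.w a b c d ^^ S.w a b c e ^^ S.w a b d e ^^ S.w a c d e ^^ S.w b c d e) = false := by
  unfold w
  generalize S.s a b c = v1
  generalize S.s a b d = v2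
  generalize S.s a b e = v3
  generalize S.s a c d = v4
  generalize S.s a c e = v5
  generalize S.s a d e = v6
  generalize S.s b c d = v7
  generalize S.s b c e = v8
  generalize S.s b d e = v9
  generalize S.s c d e = v10
  revert v1 v2 v3 v4 v5 v6 v7 v8 v9 v10
  decide +kernel

theorem at_most_one {x y a b c : V} (h : D5 x y a b c) :
    S.ins x a b c → S.ins y a b c → ¬ (S.w x y a b = false ∧ S.w x y a c = false) ∧
      ¬ (S.w x y a b = false ∧ S.w x y b c = false) ∧
      ¬ (S.w x y a c = false ∧ S.w x y b c = false) := by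
  obtain ⟨P, Q⟩ := Sys.pm5 S h
  unfold Sys.p3 at P
  revert Q
  simp only [Sys.cross, Sys.ins, Sys.w, P]
  generalize Sys.s S x y a = v1
  generalize Sys.s S x y b = v2
  generalize Sys.s S x y c = v3
  generalize Sys.s S x a b = v4
  generalize Sys.s S x a c = v5
  generalize Sys.s S x b c = v6
  generalize Sys.s S y a b = v7
  generalize Sys.s S y a c = v8
  generalize Sys.s S y b c = v9
  generalize Sys.s S a b c = v10
  clear P
  revert v1 v2 v3 v4 v5 v6 v7 v8 v9 v10
  decide +kernel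

theorem G3 {x y z b c : V} (h : D5 x y z b c) :
    S.s x y b = S.s x z c → S.s x y c ≠ S.s x z b → S.s x y z = S.s x b c := by
  obtain ⟨-, Q⟩ := S.pm5 h
  revert Q
  generalize S.s x y z = v1
  generalize S.s x y b = v2
  generalize S.s x y c = v3
  generalize S.s x z b = v4
  generalize S.s x z c = v5
  generalize S.s x b c = v6
  generalize S.s y z b = v7
  generalize S.s y z c = v8
  generalize S.s y b c = v9
  generalize S.s z b c = v10
  revert v1 v2 v3 v4 v5 v6 v7 v8 v9 v10
  decide +kernel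

theorem X3 {x y z u v : V} (h : D5 x y z u v) :
    S.s y z u ≠ S.s x y z → S.s z x u = S.s x y z → S.s x y u = S.s x y z →
    S.s z x v ≠ S.s x y z → S.s y z v = S.s x y z → S.s x y v = S.s x y z →
    S.cross x u y v := by
  obtain ⟨P, Q⟩ := Sys.pm5 S h
  unfold Sys.p3 at P
  revert Q
  simp only [Sys.cross, Sys.ins, Sys.w, P]
  generalize Sys.s S x y z = v1
  generalize Sys.s S x y u = v2
  generalize Sys.s S x y v = v3
  generalize Sys.s S x z u = v4
  generalize Sys.s S x z v = v5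
  generalize Sys.s S x u v = v6
  generalize Sys.s S y z u = v7
  generalize Sys.s S y z v = v8
  generalize Sys.s S y u v = v9
  generalize Sys.s S z u v = v10
  clear P
  revert v1 v2 v3 v4 v5 v6 v7 v8 v9 v10
  decide +kernel

set_option synthInstance.maxHeartbeats 400000 in
set_option synthInstance.maxSize 10000 in
theorem six_bool : ∀ xyu xyv xuv yuv : Bool,
    ((!xyu) ≠ xuv ∧ (xyv) ≠ (!yuv)) →
    ∀ yzv yzt yvt zvt : Bool, ((!yzv) ≠ yvt ∧ (yzt) ≠ (!zvt)) →
    ∀ xzu xzt xut zut : Bool, ((xzt) ≠ (!zut) ∧ (!xzu) ≠ (xut)) →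
    ∀ xyz yzu : Bool, (yzu ^^ xzu ^^ xyu ^^ xyz) = true →
    ∀ xzv : Bool, (yzv ^^ xzv ^^ xyv ^^ xyz) = true →
    ∀ xyt : Bool, (yzt ^^ xzt ^^ xyt ^^ xyz) = true →
    ∀ uvt xvt : Bool, (uvt ^^ xvt ^^ xut ^^ xuv) = true →
    ∀ yut : Bool, (uvt ^^ yvt ^^ yut ^^ yuv) = true →
    ∀ zuv : Bool, (uvt ^^ zvt ^^ zut ^^ zuv) = true →
    (yut ^^ xut ^^ xyt ^^ xyu) = true → (yvt ^^ xvt ^^ xyt ^^ xyv) = true →
    (zuv ^^ yuv ^^ yzv ^^ yzu) = true → (zut ^^ yut ^^ yzt ^^ yzu) = true →
    (zuv ^^ xuv ^^ xzv ^^ xzu) = true → (zvt ^^ xvt ^^ xzt ^^ xzv) = true →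
    ok5 xyz xyu xyv xzu xzv xuv yzu yzv yuv zuv = true →
    ok5 xyz xyu xyt xzu xzt xut yzu yzt yut zut = true →
    ok5 xyz xyv xyt xzv xzt xvt yzv yzt yvt zvt = true →
    ok5 xyu xyv xyt xuv xut xvt yuv yut yvt uvt = true →
    ok5 xzu xzv xzt xuv xut xvt zuv zut zvt uvt = true →
    ok5 yzu yzv yzt yuv yut yvt zuv zut zvt uvt = true → False := by
  decide +kernel

/-- the case of six points -/
theorem six {x y z u v t : V} (h1 : D5 x y z u v) (h2 : D5 x y z u t) (h3 : D5 x y z v t)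
    (h4 : D5 x y u v t) (h5 : D5 x z u v t) (h6 : D5 y z u v t) :
    S.cross x u y v → S.cross y v z t → S.cross z t x u →
    S.w x y z u = true → S.w x y z v = true → S.w x y z t = true →
    S.w x u v t = true → S.w y u v t = true → S.w z u v t = true →
    S.w x y u t = true → S.w x y v t = true → S.w y z u v = true → S.w y z u t = true →
    S.w x z u v = true → S.w x z v t = true → False := by
  obtain ⟨P1, Q1⟩ := S.pm5 h1
  obtain ⟨P2, Q2⟩ := S.pm5 h2
  obtain ⟨P3, Q3⟩ := S.pm5 h3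
  obtain ⟨P4, Q4⟩ := S.pm5 h4
  obtain ⟨P5, Q5⟩ := S.pm5 h5
  obtain ⟨P6, Q6⟩ := S.pm5 h6
  unfold p3 at P1 P2 P3 P4 P5 P6
  simp only [Sys.cross, Sys.w, P1, P2, P3]
  clear P1 P2 P3 P4 P5 P6 h1 h2 h3 h4 h5 h6
  generalize S.s x y z = xyz at *
  generalize S.s x y u = xyu at *
  generalize S.s x y v = xyv at *
  generalize S.s x y t = xyt at *
  generalize S.s x z u = xzu at *
  generalize S.s x z v = xzv at *
  generalize S.s x z t = xzt at *
  generalize S.s x u v = xuv at *
  generalize S.s x u t = xut at *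
  generalize S.s x v t = xvt at *
  generalize S.s y z u = yzu at *
  generalize S.s y z v = yzv at *
  generalize S.s y z t = yzt at *
  generalize S.s y u v = yuv at *
  generalize S.s y u t = yut at *
  generalize S.s y v t = yvt at *
  generalize S.s z u v = zuv at *
  generalize S.s z u t = zut at *
  generalize S.s z v t = zvt at *
  generalize S.s u v t = uvt at *
  intro a1 a2 a3 a4 a5 a6 a7 a8 a9 a10 a11 a12 a13 a14 a15
  exact six_bool xyu xyv xuv yuv a1 yzv yzt yvt zvt a2 xzu xzt xut zut a3 xyz yzu a4 xzv a5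
    xyt a6 uvt xvt a7 yut a8 zuv a9 a10 a11 a12 a13 a14 a15 Q1 Q2 Q3 Q4 Q5 Q6


structure Hull (S : Sys V) (H : Finset V) : Prop where
  e1 : ∀ x ∈ H, ∀ a b c, D4 x a b c → ¬ S.ins x a b c
  e2 : ∀ x, x ∉ H → ∃ a ∈ H, ∃ b ∈ H, ∃ c ∈ H, a ≠ b ∧ a ≠ c ∧ b ≠ c ∧ S.ins x a b c

/-- every crossing of `A` is a crossing of `B` -/
def Sub (A B : Sys V) : Prop := ∀ a b c d, D4 a b c d → A.cross a b c d → B.cross a b c d

theorem wsub {A B : Sys V} (hX : Sub A B) {a b c d : V} (h : D4 a b c d) :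
    A.w a b c d = false → B.w a b c d = false := by
  intro hw
  rcases A.of_w h hw with h1 | h1 | h1
  · exact B.w_cross h (hX _ _ _ _ h h1)
  · have h' : D4 a c b d := by grind [D4]
    have := B.w_cross h' (hX _ _ _ _ h' h1)
    rwa [B.w2 h] at this
  · have h' : D4 a d b c := by grind [D4]
    have := B.w_cross h' (hX _ _ _ _ h' h1)
    have h2 : D4 a b d c := by grind [D4]
    rwa [B.w2 h2, B.w3 h] at this

theorem back {A B : Sys V} (hX : Sub A B) {a b c d : V} (h : D4 a b c d)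
    (hB : B.cross a b c d) (hw : A.w a b c d = false) : A.cross a b c d := by
  rcases A.of_w h hw with h1 | h1 | h1
  · exact h1
  · have h' : D4 a c b d := by grind [D4]
    exact absurd (hX _ _ _ _ h' h1) (B.cross_uniq h hB).1
  · have h' : D4 a d b c := by grind [D4]
    exact absurd (hX _ _ _ _ h' h1) (B.cross_uniq h hB).2

/-! ### hull vertices are preserved -/

theorem O4' (S : Sys V) {y p q r : V} (h : D4 y p q r) : S.ins y p q r → ¬ S.cross y r p q := by
  obtain ⟨P, Q⟩ := Sys.pm4 S h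
  unfold Sys.p3 at P
  revert Q
  simp only [Sys.cross, Sys.ins, Sys.w, P]
  generalize Sys.s S y p q = v1
  generalize Sys.s S y p r = v2
  generalize Sys.s S y q r = v3
  generalize Sys.s S p q r = v4
  clear P
  revert v1 v2 v3 v4
  decide +kernel

theorem L1core {A B : Sys V} {HA HB : Finset V} (hA : Hull A HA) (hB : Hull B HB)
    (hX : Sub A B) {y r r1 r2 : V} (hy : y ∈ HA) (hr : r ∈ HA) (hd : D4 y r r1 r2)
    (hs : A.s y r r1 ≠ A.s y r r2) (hyB : y ∉ HB) : False := by
  have hC : ∀ c d, D4 y r c d → A.s y r c ≠ A.s y r d → B.cross y r c d := by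
    intro c d h h'
    refine hX _ _ _ _ h (A.H4 h h' (hA.e1 y hy _ _ _ h) (hA.e1 r hr _ _ _ ?_))
    grind [D4]
  have K' : ∀ c d, D4 y r c d → B.s y r c ≠ B.s y r d → A.s y r c ≠ A.s y r d := by
    intro c d h h' h2
    have : ∃ r0, r0 ≠ y ∧ r0 ≠ r ∧ A.s y r r0 ≠ A.s y r c := by
      by_cases h3 : A.s y r r1 = A.s y r c
      · refine ⟨r2, ?_, ?_, ?_⟩
        · grind [D4]
        · grind [D4]
        · rw [← h3]; exact hs.symm
      · exact ⟨r1, by grind [D4], by grind [D4], h3⟩
    obtain ⟨r0, h3, h4, h5⟩ := this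
    have h6 : r0 ≠ c := fun h => h5 (by rw [h])
    have h7 : r0 ≠ d := fun h => h5 (by rw [h, h2])
    have h8 := (hC r0 c (by grind [D4]) h5).1
    have h9 := (hC r0 d (by grind [D4]) (by rw [← h2]; exact h5)).1
    revert h' h8 h9
    generalize B.s y r r0 = v1
    generalize B.s y r c = v2
    generalize B.s y r d = v3
    revert v1 v2 v3
    decide
  obtain ⟨p, hp, q, hq, t, ht, h12, h13, h23, hin⟩ := hB.e2 y hyB
  have hyp : y ≠ p := fun h => hyB (h ▸ hp)
  have hyq : y ≠ q := fun h => hyB (h ▸ hq)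
  have hyt : y ≠ t := fun h => hyB (h ▸ ht)
  have hyr : y ≠ r := hd.1
  have alone : ∀ p q t, D5 y p q t r → B.ins y p q t → B.s y r p ≠ B.s y r q →
      B.s y r p ≠ B.s y r t → False := by
    intro p q t h5 hin h1 h2
    exact B.T7 h5 hin ⟨hC p q (by grind [D4, D5]) (K' p q (by grind [D4, D5]) h1),
      hC p t (by grind [D4, D5]) (K' p t (by grind [D4, D5]) h2)⟩
  have hitr : ∀ p q, D4 y p q r → B.ins y p q r → False := by
    intro p q h4 hin
    exact B.O4' h4 hin (hC p q (by grind [D4]) (K' p q (by grind [D4]) (B.O4 h4 hin)))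
  have hD : D4 y p q t := ⟨hyp, hyq, hyt, h12, h13, h23⟩
  by_cases hrp : r = p
  · subst hrp
    exact hitr q t (by grind [D4]) (B.ins_perm hD hin).1
  by_cases hrq : r = q
  · subst hrq
    refine hitr t p (by grind [D4]) ?_
    exact (B.ins_perm (by grind [D4]) (B.ins_perm hD hin).1).1
  by_cases hrt : r = t
  · subst hrt
    exact hitr p q hD hin
  have h5 : D5 y p q t r := by grind [D5]
  have h6 := B.T5 h5 hin
  have i1 : B.ins y p q t := hin
  have i2 : B.ins y q t p := (B.ins_perm hD hin).1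
  have i3 : B.ins y t p q := (B.ins_perm (by grind [D4]) i2).1
  have a1 := alone p q t h5 i1
  have a2 := alone q t p (by grind [D5]) i2
  have a3 := alone t p q (by grind [D5]) i3
  revert h6 a1 a2 a3
  generalize B.s y r p = v1
  generalize B.s y r q = v2
  generalize B.s y r t = v3
  revert v1 v2 v3
  decide

theorem L1 [DecidableEq V] {A B : Sys V} {HA HB : Finset V} (hA : Hull A HA) (hB : Hull B HB)
    (hX : Sub A B) (h4 : 4 ≤ HA.card) : HA ⊆ HB := by
  intro y hy
  by_contra hyB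
  have hc : 2 < (HA.erase y).card := by
    rw [Finset.card_erase_of_mem hy]; omega
  obtain ⟨r1, m1, r2, m2, r3, m3, n1, n2, n3⟩ := Finset.two_lt_card.mp hc
  have k1 := Finset.mem_of_mem_erase m1
  have k2 := Finset.mem_of_mem_erase m2
  have k3 := Finset.mem_of_mem_erase m3
  have y1 := (Finset.ne_of_mem_erase m1).symm
  have y2 := (Finset.ne_of_mem_erase m2).symm
  have y3 := (Finset.ne_of_mem_erase m3).symm
  have hD : D4 y r1 r2 r3 := ⟨y1, y2, y3, n1, n2, n3⟩
  have hw : A.w y r1 r2 r3 = false := by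
    by_contra hw
    rw [Bool.not_eq_false] at hw
    rcases A.of_not_w hD hw with h | h | h | h
    · exact hA.e1 y hy _ _ _ hD h
    · exact hA.e1 r1 k1 _ _ _ (by grind [D4]) h
    · exact hA.e1 r2 k2 _ _ _ (by grind [D4]) h
    · exact hA.e1 r3 k3 _ _ _ (by grind [D4]) h
  rcases A.of_w hD hw with h | h | h
  · exact L1core hA hB hX hy k1 hD h.1 hyB
  · exact L1core hA hB hX hy k2 (by grind [D4]) h.1 hyB
  · exact L1core hA hB hX hy k3 (by grind [D4]) h.1 hyB


/-- the flip of the triple `abc` from `A` to `B` -/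
def F (A B : Sys V) (a b c : V) : Bool := A.s a b c ^^ B.s a b c

theorem Fp (A B : Sys V) {a b c : V} (h1 : a ≠ b) (h2 : a ≠ c) (h3 : b ≠ c) :
    F A B b a c = F A B a b c ∧ F A B a c b = F A B a b c ∧ F A B b c a = F A B a b c ∧
    F A B c a b = F A B a b c := by
  obtain ⟨p1, p2, p3, p4, p5⟩ := A.perm3 h1 h2 h3
  obtain ⟨q1, q2, q3, q4, q5⟩ := B.perm3 h1 h2 h3
  simp only [F, p1, p2, p3, p4, q1, q2, q3, q4]
  generalize A.s a b c = u
  generalize B.s a b c = v
  revert u v
  decide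

theorem aon_aux (A B : Sys V) {a b c d : V} (h : D4 a b c d) :
    (A.cross a b c d ∧ B.cross a b c d) ∨ (A.cross a c b d ∧ B.cross a c b d) ∨
      (A.cross a d b c ∧ B.cross a d b c) →
    F A B a b d = F A B a b c ∧ F A B a c d = F A B a b c ∧ F A B b c d = F A B a b c := by
  obtain ⟨P1, Q1⟩ := A.pm4 h
  obtain ⟨P2, Q2⟩ := B.pm4 h
  unfold p3 at P1 P2
  revert Q1 Q2
  simp only [Sys.cross, F, P1, P2]
  clear P1 P2
  generalize A.s a b c = u1
  generalize B.s a b c = v1
  generalize A.s a b d = u2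
  generalize B.s a b d = v2
  generalize A.s a c d = u3
  generalize B.s a c d = v3
  generalize A.s b c d = u4
  generalize B.s b c d = v4
  revert u1 u2 u3 u4 v1 v2 v3 v4
  decide +kernel

theorem aon {A B : Sys V} (hX : Sub A B) {a b c d : V} (h : D4 a b c d)
    (hw : A.w a b c d = false) :
    F A B a b d = F A B a b c ∧ F A B a c d = F A B a b c ∧ F A B b c d = F A B a b c := by
  apply aon_aux A B h
  rcases A.of_w h hw with h1 | h1 | h1
  · exact Or.inl ⟨h1, hX _ _ _ _ h h1⟩
  · exact Or.inr (Or.inl ⟨h1, hX _ _ _ _ (by grind [D4]) h1⟩)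
  · exact Or.inr (Or.inr ⟨h1, hX _ _ _ _ (by grind [D4]) h1⟩)

/-- lines through interior points have hull vertices on both sides -/
theorem factN {S : Sys V} {H : Finset V} (hS : Hull S H) {x y : V} (hxy : x ≠ y)
    (hx : x ∉ H) (hy : y ∉ H) (t : Bool) : ∃ b ∈ H, S.s x y b = t := by
  obtain ⟨p, hp, q, hq, r, hr, h12, h13, h23, hin⟩ := hS.e2 x hx
  have h5 : D5 x p q r y := by
    have : x ≠ p := fun h => hx (h ▸ hp)
    have : x ≠ q := fun h => hx (h ▸ hq)
    have : x ≠ r := fun h => hx (h ▸ hr)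
    have : y ≠ p := fun h => hy (h ▸ hp)
    have : y ≠ q := fun h => hy (h ▸ hq)
    have : y ≠ r := fun h => hy (h ▸ hr)
    grind [D5]
  have h6 := S.T5 h5 hin
  by_contra hcon
  push Not at hcon
  have c1 := hcon p hp
  have c2 := hcon q hq
  have c3 := hcon r hr
  clear hcon
  revert h6 c1 c2 c3
  generalize S.s x y p = v1
  generalize S.s x y q = v2
  generalize S.s x y r = v3
  revert v1 v2 v3 t
  decide

section same

variable {A B : Sys V} {H : Finset V}

theorem hullw (hA : Hull A H) {a b c d : V} (h : D4 a b c d) (ha : a ∈ H) (hb : b ∈ H)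
    (hc : c ∈ H) (hd : d ∈ H) : A.w a b c d = false := by
  by_contra hw
  rw [Bool.not_eq_false] at hw
  rcases A.of_not_w h hw with k | k | k | k
  · exact hA.e1 a ha _ _ _ h k
  · exact hA.e1 b hb _ _ _ (by grind [D4]) k
  · exact hA.e1 c hc _ _ _ (by grind [D4]) k
  · exact hA.e1 d hd _ _ _ (by grind [D4]) k

/-- flips are constant on hull triples -/
theorem step0 (hA : Hull A H) (hX : Sub A B) (h3 : 3 ≤ H.card) :
    ∃ e, ∀ a ∈ H, ∀ b ∈ H, ∀ c ∈ H, a ≠ b → a ≠ c → b ≠ c → F A B a b c = e := by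
  obtain ⟨x, hx, y, hy, z, hz, n1, n2, n3⟩ := Finset.two_lt_card.mp h3
  refine ⟨F A B x y z, ?_⟩
  have s1 : ∀ a ∈ H, x ≠ a → y ≠ a → F A B x y a = F A B x y z := by
    intro a ha h1 h2
    by_cases h : a = z
    · rw [h]
    · have hD : D4 x y z a := by grind [D4]
      exact (aon hX hD (hullw hA hD hx hy hz ha)).1
  have s2 : ∀ a ∈ H, ∀ b ∈ H, x ≠ a → x ≠ b → a ≠ b → F A B x a b = F A B x y z := by
    intro a ha b hb h1 h2 h3
    by_cases h : a = y
    · rw [h]; exact s1 b hb h2 (by rw [← h]; exact h3)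
    by_cases h' : b = y
    · rw [h', (Fp A B n1 h1 (by grind)).2.1]; exact s1 a ha h1 (by grind)
    have hD : D4 x y a b := by grind [D4]
    rw [(aon hX hD (hullw hA hD hx hy ha hb)).2.1]
    exact s1 a ha h1 (by grind)
  intro a ha b hb c hc h1 h2 h3
  by_cases h : x = a
  · rw [← h]; exact s2 b hb c hc (by rw [h]; exact h1) (by rw [h]; exact h2) h3
  by_cases h' : x = b
  · rw [← h', (Fp A B (show x ≠ a from h) (by rw [h']; exact h3) h2).1]
    exact s2 a ha c hc h (by rw [h']; exact h3) h2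
  by_cases h'' : x = c
  · rw [← h'', (Fp A B (show x ≠ a from h) h' h1).2.2.1]
    exact s2 a ha b hb h h' h1
  have hD : D4 x a b c := ⟨h, h', h'', h1, h2, h3⟩
  rw [(aon hX hD (hullw hA hD hx ha hb hc)).2.2]
  exact s2 a ha b hb h h' h1

theorem insBA (hA : Hull A H) (hX : Sub A B) {x a b c : V}
    (ha : a ∈ H) (hb : b ∈ H) (hc : c ∈ H) (h : D4 x a b c) (hin : B.ins x a b c) :
    A.ins x a b c := by
  have hw : A.w x a b c = true := by
    by_contra hw
    rw [Bool.not_eq_true] at hw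
    have h1 := wsub hX h hw
    have h2 := B.w_ins h hin
    rw [h1] at h2
    exact absurd h2 (by decide)
  rcases A.of_not_w h hw with k | k | k | k
  · exact k
  · exact absurd k (hA.e1 a ha _ _ _ (by grind [D4]))
  · exact absurd k (hA.e1 b hb _ _ _ (by grind [D4]))
  · exact absurd k (hA.e1 c hc _ _ _ (by grind [D4]))

theorem S2 (hA : Hull A H) (hX : Sub A B) {x a b c e : V}
    (ha : a ∈ H) (hb : b ∈ H) (hc : c ∈ H) (he : e ∈ H) (h : D5 x a b c e)
    (hinA : A.ins x a b c) (hinB : B.ins x a b e) : B.ins x a b c := by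
  have h1 := B.T4 (x := x) (p := a) (q := b) (r := e) (d := c) (by grind [D5]) hinB
  have hw : A.w a b c e = false := hullw hA (by grind [D4, D5]) ha hb hc he
  have h2 : A.ins x a b e := insBA hA hX ha hb he (by grind [D4, D5]) hinB
  have h3 := A.T6 h hw hinA h2
  rcases h1 with k | k | k
  · exact (B.ins_perm (by grind [D4, D5]) k).1
  · exfalso
    have h4 : A.ins x c b e := insBA hA hX hc hb he (by grind [D4, D5]) k
    exact h3 (Or.inl (A.ins_perm (by grind [D4, D5]) h4).2)
  · exfalso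
    have h4 : A.ins x c e a := insBA hA hX hc he ha (by grind [D4, D5]) k
    have h5 := (A.ins_perm (by grind [D4, D5]) h4).1
    have h6 := (A.ins_perm (by grind [D4, D5]) h5).1
    exact h3 (Or.inr h6)

theorem insAB (hA : Hull A H) (hB : Hull B H) (hX : Sub A B) {x a b c : V} (hx : x ∉ H)
    (ha : a ∈ H) (hb : b ∈ H) (hc : c ∈ H) (h : D4 x a b c) (hinA : A.ins x a b c) :
    B.ins x a b c := by
  by_contra hn
  have hxm : ∀ a ∈ H, x ≠ a := fun a ha h => hx (h ▸ ha)
  -- no triangle sharing two vertices with abc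
  have key1 : ∀ e ∈ H, a ≠ e → b ≠ e → ¬ B.ins x a b e := by
    intro e he h1 h2 h3
    by_cases h4 : c = e
    · subst h4; exact hn h3
    · exact hn (S2 hA hX ha hb hc he (by grind [D5, D4]) hinA h3)
  have key2 : ∀ e ∈ H, b ≠ e → c ≠ e → ¬ B.ins x b c e := by
    intro e he h1 h2 h3
    by_cases h4 : a = e
    · subst h4
      exact hn (B.ins_perm (by grind [D4]) (B.ins_perm (by grind [D4]) h3).1).1
    · have := S2 hA hX hb hc ha he (by grind [D5, D4]) (A.ins_perm h hinA).1 h3
      exact hn (B.ins_perm (by grind [D4]) (B.ins_perm (by grind [D4]) this).1).1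
  have key3 : ∀ e ∈ H, a ≠ e → c ≠ e → ¬ B.ins x c a e := by
    intro e he h1 h2 h3
    by_cases h4 : b = e
    · subst h4
      exact hn (B.ins_perm (by grind [D4]) h3).1
    · have h5 : A.ins x c a b := (A.ins_perm (by grind [D4]) (A.ins_perm h hinA).1).1
      have := S2 hA hX hc ha hb he (by grind [D5, D4]) h5 h3
      exact hn (B.ins_perm (by grind [D4]) this).1
  have hef : ∃ e ∈ H, ∃ f ∈ H, D4 x a e f ∧ B.ins x a e f := by
    obtain ⟨p, hp, q, hq, r, hr, h12, h13, h23, hin⟩ := hB.e2 x hx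
    have xp := hxm p hp
    have xq := hxm q hq
    have xr := hxm r hr
    have xa := hxm a ha
    by_cases h1 : a = p
    · subst h1
      exact ⟨q, hq, r, hr, by grind [D4], hin⟩
    by_cases h2 : a = q
    · subst h2
      exact ⟨r, hr, p, hp, by grind [D4], (B.ins_perm (by grind [D4]) hin).1⟩
    by_cases h3 : a = r
    · subst h3
      exact ⟨p, hp, q, hq, by grind [D4],
        (B.ins_perm (by grind [D4]) (B.ins_perm (by grind [D4]) hin).1).1⟩
    have h5 : D5 x p q r a := by grind [D5]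
    rcases B.T4 h5 hin with k | k | k
    · exact ⟨p, hp, q, hq, by grind [D4], k⟩
    · exact ⟨q, hq, r, hr, by grind [D4], k⟩
    · exact ⟨r, hr, p, hp, by grind [D4], k⟩
  obtain ⟨e, he, f, hf, hD, hin⟩ := hef
  have xb := hxm b hb
  have xc := hxm c hc
  have eb : b ≠ e := by
    intro h'
    subst h'
    exact key1 f hf (by grind [D4]) (by grind [D4]) hin
  have ec : c ≠ e := by
    intro h'
    subst h'
    exact key3 f hf (by grind [D4]) (by grind [D4]) (B.ins_perm hD hin).2
  have hin2 : B.ins x a f e :=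
    (B.ins_perm (by grind [D4]) (B.ins_perm hD hin).2).1
  have fb : b ≠ f := by
    intro h'
    subst h'
    exact key1 e he (by grind [D4]) (by grind [D4]) hin2
  have fc : c ≠ f := by
    intro h'
    subst h'
    exact key3 e he (by grind [D4]) (by grind [D4]) (B.ins_perm (by grind [D4]) hin2).2
  have kb : B.ins x b e f := by
    rcases B.T4 (x := x) (p := a) (q := e) (r := f) (d := b) (by grind [D5, D4]) hin with k | k | k
    · exact absurd (B.ins_perm (by grind [D4]) k).2 (key1 e he (by grind [D4]) eb)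
    · exact k
    · exact absurd (B.ins_perm (by grind [D4]) (B.ins_perm (by grind [D4]) k).1).1
        (key1 f hf (by grind [D4]) fb)
  have kc : B.ins x c e f := by
    rcases B.T4 (x := x) (p := a) (q := e) (r := f) (d := c) (by grind [D5, D4]) hin with k | k | k
    · exact absurd k (key3 e he (by grind [D4]) ec)
    · exact k
    · exfalso
      have k3 := (B.ins_perm (by grind [D4]) (B.ins_perm (by grind [D4]) k).1).1
      exact key3 f hf (by grind [D4]) fc (B.ins_perm (by grind [D4]) k3).2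
  have a1 := A.O4 hD (insBA hA hX ha he hf hD hin)
  have a2 := A.O4 (by grind [D4]) (insBA hA hX hb he hf (by grind [D4]) kb)
  have a3 := A.O4 (by grind [D4]) (insBA hA hX hc he hf (by grind [D4]) kc)
  have a4 := A.T5 (x := x) (a := a) (b := b) (c := c) (e := f) (by grind [D4, D5]) hinA
  revert a1 a2 a3 a4
  generalize A.s x f a = v1
  generalize A.s x f b = v2
  generalize A.s x f c = v3
  generalize A.s x f e = v4
  revert v1 v2 v3 v4
  decide

/-- flips `x a b` with `x` inside -/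
theorem step1 (hA : Hull A H) (hB : Hull B H) (hX : Sub A B) (h3 : 3 ≤ H.card) {e : Bool}
    (h0 : ∀ a ∈ H, ∀ b ∈ H, ∀ c ∈ H, a ≠ b → a ≠ c → b ≠ c → F A B a b c = e) :
    ∀ x, x ∉ H → ∀ a ∈ H, ∀ b ∈ H, a ≠ b → F A B x a b = e := by
  classical
  intro x hx a ha b hb hab
  have hxm : ∀ a ∈ H, x ≠ a := fun a ha h => hx (h ▸ ha)
  obtain ⟨c, hc, hca, hcb⟩ : ∃ c ∈ H, a ≠ c ∧ b ≠ c := by
    have : 0 < ((H.erase a).erase b).card := by
      rw [Finset.card_erase_of_mem (Finset.mem_erase.mpr ⟨hab.symm, hb⟩),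
        Finset.card_erase_of_mem ha]
      omega
    obtain ⟨c, hc⟩ := Finset.card_pos.mp this
    rw [Finset.mem_erase, Finset.mem_erase] at hc
    exact ⟨c, hc.2.2, hc.2.1.symm, hc.1.symm⟩
  have hD : D4 x a b c := ⟨hxm a ha, hxm b hb, hxm c hc, hab, hca, hcb⟩
  rw [← h0 a ha b hb c hc hab hca hcb]
  by_cases hw : A.w x a b c = false
  · exact (aon hX hD hw).2.2.symm
  · rw [Bool.not_eq_false] at hw
    have hin : A.ins x a b c := by
      rcases A.of_not_w hD hw with k | k | k | k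
      · exact k
      · exact absurd k (hA.e1 a ha _ _ _ (by grind [D4]))
      · exact absurd k (hA.e1 b hb _ _ _ (by grind [D4]))
      · exact absurd k (hA.e1 c hc _ _ _ (by grind [D4]))
    have hin2 := insAB hA hB hX hx ha hb hc hD hin
    unfold F
    rw [hin.1, hin2.1]

theorem side_aux {s t s' t' e : Bool} (h1 : (s ^^ t) = e) (h2 : (s' ^^ t') ≠ e) (h3 : s ≠ s') :
    t = t' := by
  revert s t s' t' e
  decide

/-- flips `x y b` with `x, y` inside -/
theorem step2 (hA : Hull A H) (hB : Hull B H) (hX : Sub A B) (h3 : 3 ≤ H.card) {e : Bool}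
    (h1 : ∀ x, x ∉ H → ∀ a ∈ H, ∀ b ∈ H, a ≠ b → F A B x a b = e) :
    ∀ x, x ∉ H → ∀ y, y ∉ H → x ≠ y → ∀ b ∈ H, F A B x y b = e := by
  classical
  intro x hx y hy hxy b hb
  have hxm : ∀ a ∈ H, x ≠ a := fun a ha h => hx (h ▸ ha)
  have hym : ∀ a ∈ H, y ≠ a := fun a ha h => hy (h ▸ ha)
  have same : ∀ a ∈ H, ∀ b ∈ H, a ≠ b → A.s x y a = A.s x y b → F A B x y a = e := by
    intro a ha b hb hab hs
    have hD : D4 x y a b := ⟨hxy, hxm a ha, hxm b hb, hym a ha, hym b hb, hab⟩
    have hw : A.w x y a b = false := by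
      by_contra hw
      rw [Bool.not_eq_false] at hw
      exact A.Q12 hD hw (hA.e1 a ha _ _ _ (by grind [D4])) (hA.e1 b hb _ _ _ (by grind [D4])) hs
    have k := aon hX hD hw
    rw [← k.2.1]
    exact h1 x hx a ha b hb hab
  by_contra hne
  have opp : ∀ a ∈ H, a ≠ b → A.s x y a ≠ A.s x y b := by
    intro a ha hab h
    exact hne (same b hb a ha hab.symm h.symm)
  have hall : ∀ a ∈ H, B.s x y a = B.s x y b := by
    intro a ha
    by_cases hab : a = b
    · rw [hab]
    obtain ⟨c, hc, hca, hcb⟩ : ∃ c ∈ H, a ≠ c ∧ b ≠ c := by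
      have : 0 < ((H.erase a).erase b).card := by
        rw [Finset.card_erase_of_mem (Finset.mem_erase.mpr ⟨fun h => hab h.symm, hb⟩),
          Finset.card_erase_of_mem ha]
        omega
      obtain ⟨c, hc⟩ := Finset.card_pos.mp this
      rw [Finset.mem_erase, Finset.mem_erase] at hc
      exact ⟨c, hc.2.2, hc.2.1.symm, hc.1.symm⟩
    have o1 := opp a ha hab
    have o2 := opp c hc hcb.symm
    have o3 : A.s x y a = A.s x y c := by
      revert o1 o2
      generalize A.s x y a = v1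
      generalize A.s x y b = v2
      generalize A.s x y c = v3
      revert v1 v2 v3
      decide
    have k := same a ha c hc hca o3
    exact side_aux k hne o1
  obtain ⟨a, ha, hh⟩ := factN hB hxy hx hy (!B.s x y b)
  rw [hall a ha] at hh
  revert hh
  generalize B.s x y b = v
  revert v
  decide

set_option synthInstance.maxHeartbeats 400000 in
set_option synthInstance.maxSize 10000 in
theorem step3_bool : ∀ e u1 u2 u3 u4 u5 u6 v1 v2 v3 v4 v5 v6 : Bool,
      ¬(u1 ^^ v1) = e → u2 = (!u1) → u4 = u1 → u3 = (!u1) → u5 = (!u1) →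
      (u2 = u5 → u3 ≠ u4 → u1 = u6) → (v2 = v5 → v3 ≠ v4 → v1 = v6) →
      (u2 ^^ v2) = e → (u3 ^^ v3) = e → (u4 ^^ v4) = e → (u5 ^^ v5) = e →
      (u6 ^^ v6) = e → False := by
  decide +kernel

/-- flips of interior triples -/
theorem step3 (hA : Hull A H) (hX : Sub A B) {e : Bool}
    (h1 : ∀ x, x ∉ H → ∀ a ∈ H, ∀ b ∈ H, a ≠ b → F A B x a b = e)
    (h2 : ∀ x, x ∉ H → ∀ y, y ∉ H → x ≠ y → ∀ b ∈ H, F A B x y b = e) :
    ∀ x, x ∉ H → ∀ y, y ∉ H → ∀ z, z ∉ H → x ≠ y → x ≠ z → y ≠ z → F A B x y z = e := by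
  intro x hx y hy z hz hxy hxz hyz
  have hxm : ∀ a ∈ H, x ≠ a := fun a ha h => hx (h ▸ ha)
  have hym : ∀ a ∈ H, y ≠ a := fun a ha h => hy (h ▸ ha)
  have hzm : ∀ a ∈ H, z ≠ a := fun a ha h => hz (h ▸ ha)
  by_contra hne
  have hw : ∀ b ∈ H, A.w x y z b = true := by
    intro b hb
    by_contra hw
    rw [Bool.not_eq_true] at hw
    have k := aon hX ⟨hxy, hxz, hxm b hb, hyz, hym b hb, hzm b hb⟩ hw
    rw [← k.1] at hne
    exact hne (h2 x hx y hy hxy b hb)
  obtain ⟨b, hb, hb2⟩ := factN hA hyz hy hz (A.s x y z)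
  obtain ⟨c, hc, hc2⟩ := factN hA hxz.symm hz hx (A.s x y z)
  have hDb : D4 x y z b := ⟨hxy, hxz, hxm b hb, hyz, hym b hb, hzm b hb⟩
  have hDc : D4 x y z c := ⟨hxy, hxz, hxm c hc, hyz, hym c hc, hzm c hc⟩
  obtain ⟨b3, b4⟩ := A.Q13 hDb (hw b hb) (hA.e1 b hb _ _ _ (by grind [D4])) hb2
  obtain ⟨c3, c4⟩ := A.Q13' hDc (hw c hc) (hA.e1 c hc _ _ _ (by grind [D4])) hc2
  have hbc : b ≠ c := by
    intro h
    rw [← h, b4] at c4
    revert c4
    generalize A.s x y z = v
    revert v
    decide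
  have hD5 : D5 x y z b c := ⟨hxy, hxz, hxm b hb, hxm c hc, hyz, hym b hb, hym c hc, hzm b hb,
    hzm c hc, hbc⟩
  have g1 := A.G3 hD5
  have g2 := B.G3 hD5
  have f1 := h2 x hx y hy hxy b hb
  have f2 := h2 x hx y hy hxy c hc
  have f3 := h2 x hx z hz hxz b hb
  have f4 := h2 x hx z hz hxz c hc
  have f5 := h1 x hx b hb c hc hbc
  clear hDb hDc hD5 hw hb2 hc2
  unfold F at *
  revert g1 g2 f1 f2 f3 f4 f5 hne b3 b4 c3 c4
  clear h1 h2
  generalize A.s x y z = u1
  generalize A.s x y b = u2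
  generalize A.s x y c = u3
  generalize A.s x z b = u4
  generalize A.s x z c = u5
  generalize A.s x b c = u6
  generalize B.s x y z = v1
  generalize B.s x y b = v2
  generalize B.s x y c = v3
  generalize B.s x z b = v4
  generalize B.s x z c = v5
  generalize B.s x b c = v6
  intro hne b3 b4 c3 c4 g1 g2 f1 f2 f3 f4 f5
  exact step3_bool _ _ _ _ _ _ _ _ _ _ _ _ _ hne b3 b4 c3 c4 g1 g2 f1 f2 f3 f4 f5

theorem L2 (hA : Hull A H) (hB : Hull B H) (hX : Sub A B) (h3 : 3 ≤ H.card) {a b c d : V}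
    (hD : D4 a b c d) (hcr : B.cross a b c d) : A.cross a b c d := by
  obtain ⟨e, h0⟩ := step0 (B := B) hA hX h3
  have h1 := step1 hA hB hX h3 h0
  have h2 := step2 hA hB hX h3 h1
  have h3' := step3 hA hX h1 h2
  have hall : ∀ a b c, a ≠ b → a ≠ c → b ≠ c → F A B a b c = e := by
    intro a b c n1 n2 n3
    by_cases ha : a ∈ H
    · by_cases hb : b ∈ H
      · by_cases hc : c ∈ H
        · exact h0 a ha b hb c hc n1 n2 n3
        · rw [← (Fp A B n1 n2 n3).2.2.2]; exact h1 c hc a ha b hb n1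
      · by_cases hc : c ∈ H
        · rw [← (Fp A B n1 n2 n3).1]; exact h1 b hb a ha c hc n2
        · rw [← (Fp A B n1 n2 n3).2.2.1]; exact h2 b hb c hc n3 a ha
    · by_cases hb : b ∈ H
      · by_cases hc : c ∈ H
        · exact h1 a ha b hb c hc n3
        · rw [← (Fp A B n1 n2 n3).2.1]; exact h2 a ha c hc n2 b hb
      · by_cases hc : c ∈ H
        · exact h2 a ha b hb n1 c hc
        · exact h3' a ha b hb c hc n1 n2 n3
  obtain ⟨n1, n2, n3, n4, n5, n6⟩ := hD
  have f1 := hall a b c n1 n2 n4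
  have f2 := hall a b d n1 n3 n5
  have f3 := hall c d a n6 n2.symm n3.symm
  have f4 := hall c d b n6 n4.symm n5.symm
  clear hall h3' h2 h1 h0
  unfold F at *
  unfold cross at *
  revert f1 f2 f3 f4 hcr
  generalize A.s a b c = u1
  generalize A.s a b d = u2
  generalize A.s c d a = u3
  generalize A.s c d b = u4
  generalize B.s a b c = v1
  generalize B.s a b d = v2
  generalize B.s c d a = v3
  generalize B.s c d b = v4
  intro hcr f1 f2 f3 f4
  constructor
  · intro h
    apply hcr.1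
    subst h
    revert f1 f2
    clear f3 f4 hcr
    revert u1 v1 v2 e
    decide
  · intro h
    apply hcr.2
    subst h
    revert f3 f4
    clear f1 f2 hcr
    revert u3 v3 v4 e
    decide

end same


section three

variable {A B : Sys V} {H : Finset V}

theorem wsub' (hX : Sub A B) {a b c d : V} (h : D4 a b c d) :
    B.w a b c d = true → A.w a b c d = true := by
  intro h1
  by_contra h2
  rw [Bool.not_eq_true] at h2
  rw [wsub hX h h2] at h1
  exact absurd h1 (by decide)

theorem ins_all [DecidableEq V] (hB : Hull B H) (h3 : H.card = 3) {x u v t : V} (hx : x ∉ H)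
    (hu : u ∈ H) (hv : v ∈ H) (ht : t ∈ H) (n1 : u ≠ v) (n2 : u ≠ t) (n3 : v ≠ t) :
    B.ins x u v t := by
  obtain ⟨p, hp, q, hq, r, hr, h12, h13, h23, hin⟩ := hB.e2 x hx
  have hH : H = {u, v, t} := by
    symm
    apply Finset.eq_of_subset_of_card_le
    · intro y hy
      simp only [Finset.mem_insert, Finset.mem_singleton] at hy
      rcases hy with rfl | rfl | rfl <;> assumption
    · rw [h3, Finset.card_insert_of_notMem (by simp [n1, n2]), Finset.card_pair n3]
  have hxm : ∀ a ∈ H, x ≠ a := fun a ha h => hx (h ▸ ha)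
  have xp := hxm p hp
  have xq := hxm q hq
  have xr := hxm r hr
  have hD : D4 x p q r := ⟨xp, xq, xr, h12, h13, h23⟩
  have i1 : B.ins x p q r := hin
  have i2 : B.ins x q r p := (B.ins_perm hD hin).1
  have i3 : B.ins x r p q := (B.ins_perm (by grind [D4]) i2).1
  have i4 : B.ins x q p r := (B.ins_perm hD hin).2
  have i5 : B.ins x p r q := (B.ins_perm (by grind [D4]) i4).1
  have i6 : B.ins x r q p := (B.ins_perm (by grind [D4]) i5).1
  rw [hH] at hp hq hr
  simp only [Finset.mem_insert, Finset.mem_singleton] at hp hq hr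
  rcases hp with rfl | rfl | rfl <;> rcases hq with rfl | rfl | rfl <;>
    rcases hr with rfl | rfl | rfl <;>
    first
    | exact absurd rfl h12
    | exact absurd rfl h13
    | exact absurd rfl h23
    | assumption

theorem third [DecidableEq V] (h3 : 3 ≤ H.card) {a b : V} (ha : a ∈ H) (hb : b ∈ H)
    (hab : a ≠ b) : ∃ c ∈ H, a ≠ c ∧ b ≠ c := by
  have : 0 < ((H.erase a).erase b).card := by
    rw [Finset.card_erase_of_mem (Finset.mem_erase.mpr ⟨hab.symm, hb⟩),
      Finset.card_erase_of_mem ha]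
    omega
  obtain ⟨c, hc⟩ := Finset.card_pos.mp this
  rw [Finset.mem_erase, Finset.mem_erase] at hc
  exact ⟨c, hc.2.2, hc.2.1.symm, hc.1.symm⟩

theorem t1 [DecidableEq V] (hB : Hull B H) (hX : Sub A B) (h3 : H.card = 3) {x u v t : V}
    (hx : x ∉ H) (hu : u ∈ H) (hv : v ∈ H) (ht : t ∈ H) (n1 : u ≠ v) (n2 : u ≠ t) (n3 : v ≠ t) :
    A.w x u v t = true ∧ B.w x u v t = true := by
  have hxm : ∀ a ∈ H, x ≠ a := fun a ha h => hx (h ▸ ha)
  have hD : D4 x u v t := ⟨hxm u hu, hxm v hv, hxm t ht, n1, n2, n3⟩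
  have h1 := B.w_ins hD (ins_all hB h3 hx hu hv ht n1 n2 n3)
  exact ⟨wsub' hX hD h1, h1⟩

set_option synthInstance.maxHeartbeats 400000 in
set_option synthInstance.maxSize 10000 in
theorem t2_bool : ∀ a1 a2 a3 a4 a5 b1 b2 b3 b4 b5 : Bool,
    (a1 ^^ a2 ^^ a3 ^^ a4 ^^ a5) = false → (b1 ^^ b2 ^^ b3 ^^ b4 ^^ b5) = false →
    a4 = true → a5 = true → b4 = true → b5 = true →
    (b1 = true → a1 = true) → (b2 = true → a2 = true) → (b3 = true → a3 = true) →
    ¬ (b1 = false ∧ b2 = false) → ¬ (b1 = false ∧ b3 = false) → ¬ (b2 = false ∧ b3 = false) →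
    a1 = b1 := by
  decide +kernel

theorem t2 [DecidableEq V] (hB : Hull B H) (hX : Sub A B) (h3 : H.card = 3) {x y u v : V}
    (hx : x ∉ H) (hy : y ∉ H) (hxy : x ≠ y) (hu : u ∈ H) (hv : v ∈ H) (n1 : u ≠ v) :
    A.w x y u v = B.w x y u v := by
  obtain ⟨t, ht, n2, n3⟩ := third (le_of_eq h3.symm) hu hv n1
  have hxm : ∀ a ∈ H, x ≠ a := fun a ha h => hx (h ▸ ha)
  have hym : ∀ a ∈ H, y ≠ a := fun a ha h => hy (h ▸ ha)
  have hD : D5 x y u v t := ⟨hxy, hxm u hu, hxm v hv, hxm t ht, hym u hu, hym v hv, hym t ht,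
    n1, n2, n3⟩
  obtain ⟨a4, b4⟩ := t1 hB hX h3 hx hu hv ht n1 n2 n3
  obtain ⟨a5, b5⟩ := t1 hB hX h3 hy hu hv ht n1 n2 n3
  obtain ⟨m1, m2, m3⟩ := B.at_most_one hD (ins_all hB h3 hx hu hv ht n1 n2 n3)
    (ins_all hB h3 hy hu hv ht n1 n2 n3)
  exact t2_bool _ _ _ _ _ _ _ _ _ _ (A.par5 x y u v t) (B.par5 x y u v t) a4 a5 b4 b5
    (wsub' hX (by grind [D4, D5])) (wsub' hX (by grind [D4, D5])) (wsub' hX (by grind [D4, D5]))
    m1 m2 m3

set_option synthInstance.maxHeartbeats 400000 in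
set_option synthInstance.maxSize 10000 in
theorem t3_bool : ∀ a1 a2 a3 a4 a5 b1 b2 b3 b4 b5 : Bool,
    (a1 ^^ a2 ^^ a3 ^^ a4 ^^ a5) = false → (b1 ^^ b2 ^^ b3 ^^ b4 ^^ b5) = false →
    a3 = b3 → a4 = b4 → a5 = b5 → a1 ≠ b1 → a2 ≠ b2 := by
  decide +kernel

set_option synthInstance.maxHeartbeats 400000 in
set_option synthInstance.maxSize 10000 in
theorem t3_bool' : ∀ a1 a2 a3 a4 a5 b1 b2 b3 b4 b5 : Bool,
    (a1 ^^ a2 ^^ a3 ^^ a4 ^^ a5) = false → (b1 ^^ b2 ^^ b3 ^^ b4 ^^ b5) = false →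
    a2 = b2 → a3 = b3 → a4 = b4 → a5 = b5 → a1 = b1 := by
  decide +kernel

theorem bne {a b : Bool} (h : a = !b) : a ≠ b := by
  revert a b; decide

theorem wdiff {a b : Bool} (h : a ≠ b) (h1 : b = true → a = true) : a = true ∧ b = false := by
  revert a b; decide

theorem tfof {a b : Bool} (h : ¬ (a = false ∧ b = false)) (ha : a = false) : b = true := by
  revert a b; decide

theorem t3 [DecidableEq V] (hB : Hull B H) (hX : Sub A B) (h3 : H.card = 3) {x y z u : V}
    (hx : x ∉ H) (hy : y ∉ H) (hz : z ∉ H) (hxy : x ≠ y) (hxz : x ≠ z) (hyz : y ≠ z)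
    (hu : u ∈ H) : A.w x y z u = B.w x y z u := by
  by_contra hbad0
  have hxm : ∀ a ∈ H, x ≠ a := fun a ha h => hx (h ▸ ha)
  have hym : ∀ a ∈ H, y ≠ a := fun a ha h => hy (h ▸ ha)
  have hzm : ∀ a ∈ H, z ≠ a := fun a ha h => hz (h ▸ ha)
  have hbad : ∀ v ∈ H, A.w x y z v ≠ B.w x y z v := by
    intro v hv
    by_cases huv : u = v
    · rw [← huv]; exact hbad0
    · exact t3_bool _ _ _ _ _ _ _ _ _ _ (A.par5 x y z u v) (B.par5 x y z u v)
        (t2 hB hX h3 hx hy hxy hu hv huv) (t2 hB hX h3 hx hz hxz hu hv huv)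
        (t2 hB hX h3 hy hz hyz hu hv huv) hbad0
  have hD4 : ∀ v ∈ H, D4 x y z v := fun v hv =>
    ⟨hxy, hxz, hxm v hv, hyz, hym v hv, hzm v hv⟩
  have hAB : ∀ v ∈ H, A.w x y z v = true ∧ B.w x y z v = false := fun v hv =>
    wdiff (hbad v hv) (wsub' hX (hD4 v hv))
  clear hbad0 hbad hu u
  obtain ⟨u, hu, su⟩ := factN hB hyz hy hz (!B.s x y z)
  obtain ⟨v, hv, sv⟩ := factN hB hxz.symm hz hx (!B.s x y z)
  obtain ⟨r, hr, sr⟩ := factN hB hxy hx hy (!B.s x y z)
  have su := bne su
  have sv := bne sv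
  have sr := bne sr
  obtain ⟨c1, c2, c3, c4, c5⟩ := B.perm3 hxy hxz hyz
  -- u beyond yz
  have eu := B.Q14 (hD4 u hu) (hAB u hu).2 (hB.e1 u hu _ _ _ (by
    have := hD4 u hu; grind [D4])) su
  have ev := B.Q14 (x := y) (y := z) (z := x) (u := v) (by have := hD4 v hv; grind [D4])
    (by
      have h1 := (hAB v hv).2
      rw [← B.w1 (hD4 v hv)] at h1
      rw [← B.w2 (a := y) (b := x) (c := z) (d := v) (by have := hD4 v hv; grind [D4])] at h1
      exact h1)
    (hB.e1 v hv _ _ _ (by have := hD4 v hv; grind [D4]))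
    (by rw [c1]; exact sv)
  have er := B.Q14 (x := z) (y := x) (z := y) (u := r) (by have := hD4 r hr; grind [D4])
    (by
      have h1 := (hAB r hr).2
      rw [← B.w2 (hD4 r hr)] at h1
      rw [← B.w1 (a := x) (b := z) (c := y) (d := r) (by have := hD4 r hr; grind [D4])] at h1
      exact h1)
    (hB.e1 r hr _ _ _ (by have := hD4 r hr; grind [D4]))
    (by rw [c2]; exact sr)
  rw [c1] at ev
  rw [c2] at er
  have huv : u ≠ v := by
    intro h; rw [← h] at sv; exact sv eu.1
  have hur : u ≠ r := by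
    intro h; rw [← h] at sr; exact sr eu.2
  have hvr : v ≠ r := by
    intro h; rw [← h] at sr; exact sr ev.1
  have hxu := hxm u hu
  have hxv := hxm v hv
  have hxr := hxm r hr
  have hyu := hym u hu
  have hyv := hym v hv
  have hyr := hym r hr
  have hzu := hzm u hu
  have hzv := hzm v hv
  have hzr := hzm r hr
  have k1 : B.cross x u y v :=
    B.X3 (x := x) (y := y) (z := z) (u := u) (v := v) (by grind [D5]) su eu.1 eu.2 sv ev.2 ev.1
  have k2 : B.cross y v z r :=
    B.X3 (x := y) (y := z) (z := x) (u := v) (v := r) (by grind [D5]) (by rw [c1]; exact sv)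
      (by rw [c1]; exact ev.1) (by rw [c1]; exact ev.2) (by rw [c1]; exact sr)
      (by rw [c1]; exact er.2) (by rw [c1]; exact er.1)
  have k3 : B.cross z r x u :=
    B.X3 (x := z) (y := x) (z := y) (u := r) (v := u) (by grind [D5]) (by rw [c2]; exact sr)
      (by rw [c2]; exact er.1) (by rw [c2]; exact er.2) (by rw [c2]; exact su)
      (by rw [c2]; exact eu.2) (by rw [c2]; exact eu.1)
  have b1 : B.w x y u v = false := by
    rw [← B.w2 (a := x) (b := y) (c := u) (d := v) (by grind [D4])]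
    exact B.w_cross (by grind [D4]) k1
  have b2 : B.w y z v r = false := by
    rw [← B.w2 (a := y) (b := z) (c := v) (d := r) (by grind [D4])]
    exact B.w_cross (by grind [D4]) k2
  have b3 : B.w x z u r = false := by
    have h1 := B.w_cross (a := x) (b := u) (c := z) (d := r) (by grind [D4])
      ((B.cross_perm (by grind [D4]) k3).2.2)
    rwa [B.w2 (a := x) (b := z) (c := u) (d := r) (by grind [D4])] at h1
  have a1 : A.w x y u v = false := by rw [t2 hB hX h3 hx hy hxy hu hv huv]; exact b1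
  have a2 : A.w y z v r = false := by rw [t2 hB hX h3 hy hz hyz hv hr hvr]; exact b2
  have a3 : A.w x z u r = false := by rw [t2 hB hX h3 hx hz hxz hu hr hur]; exact b3
  have q1 : A.cross x u y v := by
    apply back hX (by grind [D4]) k1
    rw [A.w2 (a := x) (b := y) (c := u) (d := v) (by grind [D4])]; exact a1
  have q2 : A.cross y v z r := by
    apply back hX (by grind [D4]) k2
    rw [A.w2 (a := y) (b := z) (c := v) (d := r) (by grind [D4])]; exact a2
  have q3' : A.cross x u z r := by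
    apply back hX (by grind [D4]) (B.cross_perm (by grind [D4]) k3).2.2
    rw [A.w2 (a := x) (b := z) (c := u) (d := r) (by grind [D4])]; exact a3
  have q3 : A.cross z r x u := (A.cross_perm (by grind [D4]) q3').2.2
  have ix := ins_all hB h3 hx hu hv hr huv hur hvr
  have iy := ins_all hB h3 hy hu hv hr huv hur hvr
  have iz := ins_all hB h3 hz hu hv hr huv hur hvr
  obtain ⟨m1, m2, -⟩ := B.at_most_one (x := x) (y := y) (a := u) (b := v) (c := r)
    (by grind [D5]) ix iy
  obtain ⟨-, m3, m4⟩ := B.at_most_one (x := y) (y := z) (a := u) (b := v) (c := r)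
    (by grind [D5]) iy iz
  obtain ⟨m5, -, m6⟩ := B.at_most_one (x := x) (y := z) (a := u) (b := v) (c := r)
    (by grind [D5]) ix iz
  have e1 : A.w x y u r = true := by
    rw [t2 hB hX h3 hx hy hxy hu hr hur]; exact tfof m1 b1
  have e2 : A.w x y v r = true := by
    rw [t2 hB hX h3 hx hy hxy hv hr hvr]; exact tfof m2 b1
  have e3 : A.w y z u v = true := by
    rw [t2 hB hX h3 hy hz hyz hu hv huv]; exact tfof (fun h => m3 ⟨h.2, h.1⟩) b2
  have e4 : A.w y z u r = true := by
    rw [t2 hB hX h3 hy hz hyz hu hr hur]; exact tfof (fun h => m4 ⟨h.2, h.1⟩) b2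
  have e5 : A.w x z u v = true := by
    rw [t2 hB hX h3 hx hz hxz hu hv huv]; exact tfof (fun h => m5 ⟨h.2, h.1⟩) b3
  have e6 : A.w x z v r = true := by
    rw [t2 hB hX h3 hx hz hxz hv hr hvr]; exact tfof m6 b3
  exact A.six (x := x) (y := y) (z := z) (u := u) (v := v) (t := r) (by grind [D5])
    (by grind [D5]) (by grind [D5]) (by grind [D5]) (by grind [D5]) (by grind [D5])
    q1 q2 q3 (hAB u hu).1 (hAB v hv).1 (hAB r hr).1
    (t1 hB hX h3 hx hu hv hr huv hur hvr).1 (t1 hB hX h3 hy hu hv hr huv hur hvr).1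
    (t1 hB hX h3 hz hu hv hr huv hur hvr).1 e1 e2 e3 e4 e5 e6

theorem t4 [DecidableEq V] (hB : Hull B H) (hX : Sub A B) (h3 : H.card = 3) {x y z t : V}
    (hx : x ∉ H) (hy : y ∉ H) (hz : z ∉ H) (ht : t ∉ H) (hD : D4 x y z t) :
    A.w x y z t = B.w x y z t := by
  obtain ⟨u, hu⟩ : H.Nonempty := Finset.card_pos.mp (by omega)
  obtain ⟨n1, n2, n3, n4, n5, n6⟩ := hD
  exact t3_bool' _ _ _ _ _ _ _ _ _ _ (A.par5 x y z t u) (B.par5 x y z t u)
    (t3 hB hX h3 hx hy hz n1 n2 n4 hu) (t3 hB hX h3 hx hy ht n1 n3 n5 hu)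
    (t3 hB hX h3 hx hz ht n2 n3 n6 hu) (t3 hB hX h3 hy hz ht n4 n5 n6 hu)

theorem L3 [DecidableEq V] (hB : Hull B H) (hX : Sub A B) (h3 : H.card = 3) {a b c d : V}
    (hD : D4 a b c d) : A.w a b c d = B.w a b c d := by
  have P3 : ∀ x y z d, x ∉ H → y ∉ H → z ∉ H → D4 x y z d → A.w x y z d = B.w x y z d := by
    intro x y z d hx hy hz h
    by_cases hd : d ∈ H
    · exact t3 hB hX h3 hx hy hz h.1 h.2.1 h.2.2.2.1 hd
    · exact t4 hB hX h3 hx hy hz hd h
  have P2 : ∀ x y c d, x ∉ H → y ∉ H → D4 x y c d → A.w x y c d = B.w x y c d := by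
    intro x y c d hx hy h
    by_cases hc : c ∈ H
    · by_cases hd : d ∈ H
      · exact t2 hB hX h3 hx hy h.1 hc hd h.2.2.2.2.2
      · have := P3 x y d c hx hy hd (by grind [D4])
        rwa [A.w3 h, B.w3 h] at this
    · exact P3 x y c d hx hy hc h
  have P1 : ∀ x b c d, x ∉ H → D4 x b c d → A.w x b c d = B.w x b c d := by
    intro x b c d hx h
    by_cases hb : b ∈ H
    · by_cases hc : c ∈ H
      · by_cases hd : d ∈ H
        · obtain ⟨k1, k2⟩ := t1 hB hX h3 hx hb hc hd h.2.2.2.1 h.2.2.2.2.1 h.2.2.2.2.2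
          rw [k1, k2]
        · have h' : D4 x b d c := by grind [D4]
          have := P2 x d b c hx hd (by grind [D4])
          rwa [A.w2 h', B.w2 h', A.w3 h, B.w3 h] at this
      · have := P2 x c b d hx hc (by grind [D4])
        rwa [A.w2 h, B.w2 h] at this
    · exact P2 x b c d hx hb h
  by_cases ha : a ∈ H
  · by_cases hb : b ∈ H
    · by_cases hc : c ∈ H
      · by_cases hd : d ∈ H
        · exfalso
          have : ({a, b, c, d} : Finset V).card ≤ H.card := by
            apply Finset.card_le_card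
            intro y hy
            simp only [Finset.mem_insert, Finset.mem_singleton] at hy
            rcases hy with rfl | rfl | rfl | rfl <;> assumption
          obtain ⟨n1, n2, n3, n4, n5, n6⟩ := hD
          rw [h3, Finset.card_insert_of_notMem (by simp [n1, n2, n3]),
            Finset.card_insert_of_notMem (by simp [n4, n5]), Finset.card_pair n6] at this
          omega
        · have h' : D4 a d b c := by grind [D4]
          have h2 : D4 a b d c := by grind [D4]
          have := P1 d a b c hd (by grind [D4])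
          rwa [A.w1 h', B.w1 h', A.w2 h2, B.w2 h2, A.w3 hD, B.w3 hD] at this
      · have h' : D4 a c b d := by grind [D4]
        have := P1 c a b d hc (by grind [D4])
        rwa [A.w1 h', B.w1 h', A.w2 hD, B.w2 hD] at this
    · have := P1 b a c d hb (by grind [D4])
      rwa [A.w1 hD, B.w1 hD] at this
  · exact P1 a b c d ha hD

end three

/-- the abstract form of the theorem -/
theorem main [Fintype V] [DecidableEq V] {A B : Sys V} {HA HB : Finset V} (hA : Hull A HA)
    (hB : Hull B HB) (hX : Sub A B) (hc : HB.card ≤ HA.card) {a b c d : V} (hD : D4 a b c d)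
    (hcr : B.cross a b c d) : A.cross a b c d := by
  have h3 : 3 ≤ HB.card := by
    by_contra hlt
    have : ∃ x, x ∉ HB := by
      by_contra hcon
      push Not at hcon
      have : ({a, b, c, d} : Finset V).card ≤ HB.card :=
        Finset.card_le_card (fun y _ => hcon y)
      obtain ⟨n1, n2, n3, n4, n5, n6⟩ := hD
      rw [Finset.card_insert_of_notMem (by simp [n1, n2, n3]),
        Finset.card_insert_of_notMem (by simp [n4, n5]), Finset.card_pair n6] at this
      omega
    obtain ⟨x, hx⟩ := this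
    obtain ⟨p, hp, q, hq, r, hr, h12, h13, h23, -⟩ := hB.e2 x hx
    apply hlt
    have := Finset.two_lt_card.mpr ⟨p, hp, q, hq, r, hr, h12, h13, h23⟩
    omega
  by_cases h4 : HB.card = 3
  · refine back hX hD hcr ?_
    rw [L3 hB hX h4 hD]
    exact B.w_cross hD hcr
  · have hsub := L1 hA hB hX (by omega)
    have heq : HA = HB := Finset.eq_of_subset_of_card_le hsub hc
    subst heq
    exact L2 hA hB hX h3 hD hcr

end Sys

/-! ### Geometric definitions -/

/-- The vertices `0, ..., n-1` of `K_n` drawn in the plane: distinct points, no three collinear. -/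
structure IsRealization {n : ℕ} (p : Fin n → ℝ × ℝ) : Prop where
  inj : Function.Injective p
  gp : ∀ i j k : Fin n, i ≠ j → i ≠ k → j ≠ k → ¬ Collinear ℝ {p i, p j, p k}

/-- The edges `ab` and `cd` (for `a ≠ b`, `c ≠ d`) are different and their drawn segments meet at
a point other than a shared endpoint. -/
def Crosses {n : ℕ} (p : Fin n → ℝ × ℝ) (a b c d : Fin n) : Prop :=
  s(a, b) ≠ s(c, d) ∧
    ∃ z, z ∈ segment ℝ (p a) (p b) ∧ z ∈ segment ℝ (p c) (p d) ∧
      ∀ v, (v = a ∨ v = b) → (v = c ∨ v = d) → z ≠ p v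

/-- `f` is a geometric homomorphism from the drawing `p` of `K_n` to the drawing `q` of `K_n`. -/
structure IsGeomHom {n : ℕ} (p q : Fin n → ℝ × ℝ) (f : Fin n → Fin n) : Prop where
  edge : ∀ a b, a ≠ b → f a ≠ f b
  cross : ∀ a b c d, a ≠ b → c ≠ d → Crosses p a b c d → Crosses q (f a) (f b) (f c) (f d)

/-- `f` is a geometric isomorphism. -/
structure IsGeomIso {n : ℕ} (p q : Fin n → ℝ × ℝ) (f : Fin n → Fin n) : Prop where
  bij : Function.Bijective f
  edge : ∀ a b, a ≠ b ↔ f a ≠ f b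
  cross : ∀ a b c d, a ≠ b → c ≠ d →
    (Crosses p a b c d ↔ Crosses q (f a) (f b) (f c) (f d))

/-- `p ≺ q`: there is a vertex-injective geometric homomorphism from `p` to `q`, and the two are
not geometrically isomorphic. -/
def Prec {n : ℕ} (p q : Fin n → ℝ × ℝ) : Prop :=
  (∃ f, Function.Injective f ∧ IsGeomHom p q f) ∧ ¬ ∃ f, IsGeomIso p q f

/-- The number of vertices that are vertices (extreme points) of the convex hull of the vertex
set. -/
noncomputable def hullSize {n : ℕ} (p : Fin n → ℝ × ℝ) : ℕ :=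
  Set.ncard {i | p i ∈ Set.extremePoints ℝ (convexHull ℝ (Set.range p))}

/-! ### Determinants -/

def det (a b c : ℝ × ℝ) : ℝ := (b.1 - a.1) * (c.2 - a.2) - (b.2 - a.2) * (c.1 - a.1)

theorem det_ne {a b c : ℝ × ℝ} (h : ¬ Collinear ℝ {a, b, c}) : det a b c ≠ 0 := by
  intro hd
  apply h
  by_cases hab : a = b
  · subst hab
    simp only [Set.mem_singleton_iff, Set.insert_eq_of_mem, Set.mem_insert_iff, true_or]
    exact collinear_pair ℝ a c
  rw [collinear_iff_of_mem (p₀ := a) (by simp)]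
  refine ⟨b - a, ?_⟩
  intro y hy
  simp only [Set.mem_insert_iff, Set.mem_singleton_iff] at hy
  rcases hy with rfl | rfl | rfl
  · exact ⟨0, by simp⟩
  · exact ⟨1, by simp⟩
  · unfold det at hd
    by_cases h1 : b.1 - a.1 = 0
    · have h2 : b.2 - a.2 ≠ 0 := by
        intro h2
        apply hab
        ext
        · linarith
        · linarith
      refine ⟨(y.2 - a.2) / (b.2 - a.2), ?_⟩
      rw [h1] at hd
      have h3 : y.1 - a.1 = 0 := by
        have : (b.2 - a.2) * (y.1 - a.1) = 0 := by linarith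
        rcases mul_eq_zero.mp this with h | h
        · exact absurd h h2
        · exact h
      ext
      · simp only [vadd_eq_add, Prod.fst_add, Prod.smul_fst, Prod.fst_sub, smul_eq_mul]
        rw [h1]; linarith
      · simp only [vadd_eq_add, Prod.snd_add, Prod.smul_snd, Prod.snd_sub, smul_eq_mul]
        field_simp
        ring
    · refine ⟨(y.1 - a.1) / (b.1 - a.1), ?_⟩
      ext
      · simp only [vadd_eq_add, Prod.fst_add, Prod.smul_fst, Prod.fst_sub, smul_eq_mul]
        field_simp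
        ring
      · simp only [vadd_eq_add, Prod.snd_add, Prod.smul_snd, Prod.snd_sub, smul_eq_mul]
        field_simp
        linarith

/-- general position in terms of determinants -/
def GP {n : ℕ} (p : Fin n → ℝ × ℝ) : Prop :=
  Function.Injective p ∧ ∀ i j k : Fin n, i ≠ j → i ≠ k → j ≠ k → det (p i) (p j) (p k) ≠ 0

theorem dec_neg {x : ℝ} (hx : x ≠ 0) : decide (0 < -x) = !decide (0 < x) := by
  rcases lt_or_gt_of_ne hx with h | h
  · have h1 : 0 < -x := by linarith
    have h2 : ¬ 0 < x := by linarith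
    simp [h1, h2]
  · have h1 : ¬ 0 < -x := by linarith
    simp [h]
    linarith

theorem four_real {x y z w : ℝ} (hx : x ≠ 0) (hy : y ≠ 0) (hz : z ≠ 0) (hw : w ≠ 0)
    (h : x - y + z - w = 0) :
    fo (decide (0 < x)) (decide (0 < y)) (decide (0 < z)) (decide (0 < w)) = true := by
  unfold fo
  rcases lt_or_gt_of_ne hx with h1 | h1 <;> rcases lt_or_gt_of_ne hy with h2 | h2 <;>
    rcases lt_or_gt_of_ne hz with h3 | h3 <;> rcases lt_or_gt_of_ne hw with h4 | h4 <;>
    simp [h1, h2, h3, h4, not_lt.mpr h1.le, not_lt.mpr h2.le, not_lt.mpr h3.le,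
      not_lt.mpr h4.le] <;> linarith

theorem gp_real {x1 x2 y1 y2 z1 z2 : ℝ} (hx1 : x1 ≠ 0) (hx2 : x2 ≠ 0) (hy1 : y1 ≠ 0)
    (hy2 : y2 ≠ 0) (hz1 : z1 ≠ 0) (hz2 : z2 ≠ 0) (h : x1 * x2 - y1 * y2 + z1 * z2 = 0) :
    n3 (decide (0 < x1) == decide (0 < x2)) (!(decide (0 < y1) == decide (0 < y2)))
      (decide (0 < z1) == decide (0 < z2)) = true := by
  have key : ∀ a b : ℝ, a ≠ 0 → b ≠ 0 →
      (decide (0 < a) == decide (0 < b)) = decide (0 < a * b) := by
    intro a b ha hb
    rcases lt_or_gt_of_ne ha with h1 | h1 <;> rcases lt_or_gt_of_ne hb with h2 | h2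
    · have := mul_pos_of_neg_of_neg h1 h2
      simp [not_lt.mpr h1.le, not_lt.mpr h2.le, this]
    · have := mul_neg_of_neg_of_pos h1 h2
      simp [not_lt.mpr h1.le, h2, not_lt.mpr this.le]
    · have := mul_neg_of_pos_of_neg h1 h2
      simp [not_lt.mpr h2.le, h1, not_lt.mpr this.le]
    · have := mul_pos h1 h2
      simp [h1, h2]
  rw [key _ _ hx1 hx2, key _ _ hy1 hy2, key _ _ hz1 hz2]
  have a1 : x1 * x2 ≠ 0 := mul_ne_zero hx1 hx2
  have a2 : y1 * y2 ≠ 0 := mul_ne_zero hy1 hy2
  have a3 : z1 * z2 ≠ 0 := mul_ne_zero hz1 hz2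
  generalize x1 * x2 = x at *
  generalize y1 * y2 = y at *
  generalize z1 * z2 = z at *
  unfold n3
  rcases lt_or_gt_of_ne a1 with h1 | h1 <;> rcases lt_or_gt_of_ne a2 with h2 | h2 <;>
    rcases lt_or_gt_of_ne a3 with h3 | h3 <;>
    simp [h1, h2, h3, not_lt.mpr h1.le, not_lt.mpr h2.le, not_lt.mpr h3.le] <;> linarith

/-- the sign system of a realization -/
noncomputable def sysOf {n : ℕ} (p : Fin n → ℝ × ℝ) (h : GP p) : Sys (Fin n) where
  s a b c := decide (0 < det (p a) (p b) (p c))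
  swap a b c h1 h2 h3 := by
    rw [← dec_neg (h.2 a b c h1 h2 h3)]
    congr 2
    unfold det; ring
  rot a b c h1 h2 h3 := by
    congr 2
    unfold det; ring
  four a b c d hd := by
    obtain ⟨h1, h2, h3, h4, h5, h6⟩ := hd
    apply four_real (h.2 b c d h4 h5 h6) (h.2 a c d h2 h3 h6) (h.2 a b d h1 h3 h5)
      (h.2 a b c h1 h2 h4)
    unfold det; ring
  gp a b c d e hd := by
    obtain ⟨h1, h2, h3, h4, h5, h6, h7, h8, h9, h10⟩ := hd
    apply gp_real (h.2 a b c h1 h2 h5) (h.2 a d e h3 h4 h10) (h.2 a b d h1 h3 h6)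
      (h.2 a c e h2 h4 h9) (h.2 a b e h1 h4 h7) (h.2 a c d h2 h3 h8)
    unfold det; ring

theorem opp_of {X Y u v : ℝ} (hX : X ≠ 0) (hY : Y ≠ 0) (hu : 0 ≤ u) (hv : 0 ≤ v)
    (huv : u + v = 1) (h : u * X + v * Y = 0) : decide (0 < X) ≠ decide (0 < Y) := by
  have hne : u ≠ 0 ∨ v ≠ 0 := by
    by_contra hcon
    push Not at hcon
    rw [hcon.1, hcon.2] at huv
    norm_num at huv
  intro he
  rcases lt_or_gt_of_ne hX with h1 | h1 <;> rcases lt_or_gt_of_ne hY with h2 | h2
  · rcases hne with h3 | h3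
    · have := lt_of_le_of_ne hu h3.symm
      nlinarith
    · have := lt_of_le_of_ne hv h3.symm
      nlinarith
  · simp [not_lt.mpr h1.le, h2] at he
  · simp [not_lt.mpr h2.le, h1] at he
  · rcases hne with h3 | h3
    · have := lt_of_le_of_ne hu h3.symm
      nlinarith
    · have := lt_of_le_of_ne hv h3.symm
      nlinarith

theorem opp_sign {X Y : ℝ} (hX : X ≠ 0) (hY : Y ≠ 0) (h : decide (0 < X) ≠ decide (0 < Y)) :
    X * Y < 0 := by
  rcases lt_or_gt_of_ne hX with h1 | h1 <;> rcases lt_or_gt_of_ne hY with h2 | h2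
  · simp [not_lt.mpr h1.le, not_lt.mpr h2.le] at h
  · exact mul_neg_of_neg_of_pos h1 h2
  · exact mul_neg_of_pos_of_neg h1 h2
  · simp [h1, h2] at h

theorem frac_mem {X Y : ℝ} (h : X * Y < 0) : X - Y ≠ 0 ∧ 0 < X / (X - Y) ∧ X / (X - Y) < 1 := by
  rcases lt_trichotomy X 0 with h1 | h1 | h1
  · have h2 : 0 < Y := by
      by_contra hc
      push Not at hc
      nlinarith
    have h3 : X - Y < 0 := by linarith
    refine ⟨h3.ne, div_pos_of_neg_of_neg h1 h3, ?_⟩
    rw [div_lt_one_of_neg h3]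
    linarith
  · rw [h1] at h; norm_num at h
  · have h2 : Y < 0 := by
      by_contra hc
      push Not at hc
      nlinarith
    have h3 : 0 < X - Y := by linarith
    refine ⟨h3.ne', div_pos h1 h3, ?_⟩
    rw [div_lt_one h3]
    linarith

section

variable {n : ℕ} {p : Fin n → ℝ × ℝ}

theorem crosses_iff (h : GP p) {a b c d : Fin n} (hD : D4 a b c d) :
    Crosses p a b c d ↔ (sysOf p h).cross a b c d := by
  obtain ⟨n1, n2, n3, n4, n5, n6⟩ := hD
  have d1 := h.2 a b c n1 n2 n4
  have d2 := h.2 a b d n1 n3 n5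
  have d3 := h.2 c d a n6 n2.symm n3.symm
  have d4 := h.2 c d b n6 n4.symm n5.symm
  constructor
  · rintro ⟨-, z, hz1, hz2, -⟩
    obtain ⟨u, v, hu, hv, huv, rfl⟩ := hz1
    obtain ⟨u', v', hu', hv', huv', he⟩ := hz2
    have e1 := congrArg Prod.fst he
    have e2 := congrArg Prod.snd he
    simp only [Prod.fst_add, Prod.smul_fst, Prod.snd_add, Prod.smul_snd, smul_eq_mul] at e1 e2
    refine ⟨opp_of d1 d2 hu' hv' huv' ?_, opp_of d3 d4 hu hv huv ?_⟩
    · have hu1 : u' = 1 - v' := by linarith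
      have hu2 : u = 1 - v := by linarith
      subst hu1 hu2
      unfold det
      linear_combination (-(p b).2 + (p a).2) * e1 + ((p b).1 - (p a).1) * e2
    · have hu1 : u' = 1 - v' := by linarith
      have hu2 : u = 1 - v := by linarith
      subst hu1 hu2
      unfold det
      linear_combination ((p d).2 - (p c).2) * e1 - ((p d).1 - (p c).1) * e2
  · rintro ⟨h1, h2⟩
    have s1 := opp_sign d1 d2 h1
    have s2 := opp_sign d3 d4 h2
    obtain ⟨f1, f2, f3⟩ := frac_mem s1
    obtain ⟨g1, g2, g3⟩ := frac_mem s2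
    refine ⟨?_, ?_⟩
    · intro he
      rw [Sym2.eq_iff] at he
      rcases he with ⟨h3, h4⟩ | ⟨h3, h4⟩
      · exact n2 h3
      · exact n3 h3
    set X := det (p a) (p b) (p c) with hX
    set Y := det (p a) (p b) (p d) with hY
    set U := det (p c) (p d) (p a) with hU
    set W := det (p c) (p d) (p b) with hW
    have hrel : U - W = -(X - Y) := by
      rw [hX, hY, hU, hW]; unfold det; ring
    refine ⟨(1 - U / (U - W)) • p a + (U / (U - W)) • p b, ?_, ?_, ?_⟩
    · exact ⟨_, _, by linarith, g2.le, by ring, rfl⟩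
    · refine ⟨1 - X / (X - Y), X / (X - Y), by linarith, f2.le, by ring, ?_⟩
      rw [hrel]
      have f1' : -(X - Y) ≠ 0 := neg_ne_zero.mpr f1
      ext
      · simp only [Prod.fst_add, Prod.smul_fst, smul_eq_mul]
        field_simp
        rw [hX, hY, hU]; unfold det; ring
      · simp only [Prod.snd_add, Prod.smul_snd, smul_eq_mul]
        field_simp
        rw [hX, hY, hU]; unfold det; ring
    · intro v hv1 hv2
      rcases hv1 with rfl | rfl <;> rcases hv2 with h3 | h3
      · exact absurd h3 n2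
      · exact absurd h3 n3
      · exact absurd h3 n4
      · exact absurd h3 n5

theorem crosses_symm1 {a b c d : Fin n} : Crosses p a b c d → Crosses p b a c d := by
  rintro ⟨h1, z, h2, h3, h4⟩
  refine ⟨?_, z, ?_, h3, ?_⟩
  · rwa [Sym2.eq_swap]
  · rwa [segment_symm]
  · intro v hv; exact h4 v hv.symm

theorem crosses_symm2 {a b c d : Fin n} : Crosses p a b c d → Crosses p a b d c := by
  rintro ⟨h1, z, h2, h3, h4⟩
  refine ⟨?_, z, h2, ?_, ?_⟩
  · rwa [Sym2.eq_swap (a := d)]
  · rwa [segment_symm]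
  · intro v hv hv2; exact h4 v hv hv2.symm

theorem not_crosses_shared (h : GP p) {a b d : Fin n} (hab : a ≠ b) (had : a ≠ d) :
    ¬ Crosses p a b a d := by
  rintro ⟨h1, z, h2, h3, h4⟩
  have hbd : b ≠ d := by
    intro h; apply h1; rw [h]
  have hd := h.2 a b d hab had hbd
  have hz := h4 a (Or.inl rfl) (Or.inl rfl)
  obtain ⟨u, v, hu, hv, huv, rfl⟩ := h2
  obtain ⟨u', v', hu', hv', huv', he⟩ := h3
  have e1 := congrArg Prod.fst he
  have e2 := congrArg Prod.snd he
  simp only [Prod.fst_add, Prod.smul_fst, Prod.snd_add, Prod.smul_snd, smul_eq_mul] at e1 e2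
  have hu1 : u' = 1 - v' := by linarith
  have hu2 : u = 1 - v := by linarith
  subst hu1 hu2
  have hv0 : v * det (p a) (p b) (p d) = 0 := by
    unfold det
    linear_combination (-(p d).2 + (p a).2) * e1 + ((p d).1 - (p a).1) * e2
  rcases mul_eq_zero.mp hv0 with h5 | h5
  · apply hz
    rw [h5]; simp
  · exact hd h5

theorem crosses_D4 (h : GP p) {a b c d : Fin n} (hab : a ≠ b) (hcd : c ≠ d)
    (hc : Crosses p a b c d) : D4 a b c d := by
  refine ⟨hab, ?_, ?_, ?_, ?_, hcd⟩
  · rintro rfl; exact not_crosses_shared h hab hcd hc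
  · rintro rfl; exact not_crosses_shared h hab hcd.symm (crosses_symm2 hc)
  · rintro rfl; exact not_crosses_shared h hab.symm hcd (crosses_symm1 hc)
  · rintro rfl; exact not_crosses_shared h hab.symm hcd.symm (crosses_symm2 (crosses_symm1 hc))

/-- the hull vertices -/
noncomputable def HV (p : Fin n → ℝ × ℝ) : Finset (Fin n) :=
  open Classical in
  Finset.univ.filter (fun i => p i ∈ Set.extremePoints ℝ (convexHull ℝ (Set.range p)))

theorem mem_HV {i : Fin n} :
    i ∈ HV p ↔ p i ∈ Set.extremePoints ℝ (convexHull ℝ (Set.range p)) := by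
  unfold HV; simp

theorem hullSize_eq : hullSize p = (HV p).card := by
  unfold hullSize
  rw [← Set.ncard_coe_finset]
  congr 1
  ext i
  simp [mem_HV]

theorem same_sign {X Y : ℝ} (hX : X ≠ 0) (hY : Y ≠ 0) (h : decide (0 < X) = decide (0 < Y)) :
    0 < X / Y := by
  rcases lt_or_gt_of_ne hX with h1 | h1 <;> rcases lt_or_gt_of_ne hY with h2 | h2
  · exact div_pos_of_neg_of_neg h1 h2
  · simp [not_lt.mpr h1.le, h2] at h
  · simp [not_lt.mpr h2.le, h1] at h
  · exact div_pos h1 h2

theorem hull_e1 (h : GP p) : ∀ x ∈ HV p, ∀ a b c, D4 x a b c → ¬ (sysOf p h).ins x a b c := by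
  intro x hx a b c hD hin
  obtain ⟨n1, n2, n3, n4, n5, n6⟩ := hD
  rw [mem_HV, mem_extremePoints] at hx
  obtain ⟨hx1, hx2⟩ := hx
  have d0 := h.2 a b c n4 n5 n6
  have d1 := h.2 x a b n1 n2 n4
  have d2 := h.2 x b c n2 n3 n6
  have d3 := h.2 x c a n3 n1 n5.symm
  have g := same_sign d1 d0 hin.1
  have α := same_sign d2 d0 hin.2.1
  have β := same_sign d3 d0 hin.2.2
  set D := det (p a) (p b) (p c) with hD
  set D1 := det (p x) (p a) (p b) with hD1
  set D2 := det (p x) (p b) (p c) with hD2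
  set D3 := det (p x) (p c) (p a) with hD3
  have hsum : D1 + D2 + D3 = D := by
    rw [hD, hD1, hD2, hD3]; unfold det; ring
  have hsum' : D2 / D + D3 / D + D1 / D = 1 := by
    field_simp; linarith
  have hmem : ∀ i, p i ∈ convexHull ℝ (Set.range p) := fun i =>
    subset_convexHull ℝ _ (Set.mem_range_self i)
  have hβγ : 0 < D3 / D + D1 / D := by linarith
  set m : ℝ × ℝ := ((D3 / D) / (D3 / D + D1 / D)) • p b + ((D1 / D) / (D3 / D + D1 / D)) • p c
    with hm
  have hm1 : m ∈ convexHull ℝ (Set.range p) := by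
    apply (convex_convexHull ℝ (Set.range p)) (hmem b) (hmem c)
    · positivity
    · positivity
    · rw [← add_div, div_self hβγ.ne']
  have := (hx2 (p a) (hmem a) m hm1 ⟨D2 / D, D3 / D + D1 / D, α, hβγ, by linarith, ?_⟩).1
  · exact n1 (h.1 this).symm
  · rw [hm, smul_add, smul_smul, smul_smul, mul_div_cancel₀ _ hβγ.ne',
      mul_div_cancel₀ _ hβγ.ne']
    ext
    · simp only [Prod.fst_add, Prod.smul_fst, smul_eq_mul]
      field_simp
      rw [hD, hD1, hD2, hD3]; unfold det; ring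
    · simp only [Prod.snd_add, Prod.smul_snd, smul_eq_mul]
      field_simp
      rw [hD, hD1, hD2, hD3]; unfold det; ring

theorem mem_hull_HV (i : Fin n) :
    p i ∈ convexHull ℝ (p '' (HV p : Set (Fin n))) := by
  have hfin : (Set.range p).Finite := Set.finite_range p
  have hsub : Set.extremePoints ℝ (convexHull ℝ (Set.range p)) ⊆ Set.range p :=
    extremePoints_convexHull_subset
  have hfin2 := hfin.subset hsub
  have hKM := closure_convexHull_extremePoints (hfin.isCompact_convexHull ℝ)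
    (convex_convexHull ℝ (Set.range p))
  rw [(hfin2.isClosed_convexHull ℝ).closure_eq] at hKM
  have h1 : p i ∈ convexHull ℝ (Set.extremePoints ℝ (convexHull ℝ (Set.range p))) := by
    rw [hKM]; exact subset_convexHull ℝ _ (Set.mem_range_self i)
  refine convexHull_mono ?_ h1
  intro y hy
  obtain ⟨j, rfl⟩ := hsub hy
  exact ⟨j, mem_HV.mpr hy, rfl⟩

theorem hull_e2 (h : GP p) : ∀ x, x ∉ HV p → ∃ a ∈ HV p, ∃ b ∈ HV p, ∃ c ∈ HV p,
    a ≠ b ∧ a ≠ c ∧ b ≠ c ∧ (sysOf p h).ins x a b c := by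
  classical
  intro x hx
  have h1 := mem_hull_HV (p := p) x
  rw [convexHull_eq_union] at h1
  simp only [Set.mem_iUnion] at h1
  obtain ⟨t, ht, hai, hxt⟩ := h1
  have hcard : t.card ≤ 3 := by
    have h2 := hai.card_le_finrank_succ
    have h3 : Module.finrank ℝ (vectorSpan ℝ (Set.range ((↑) : t → ℝ × ℝ))) ≤ 2 := by
      refine (Submodule.finrank_le _).trans ?_
      simp
    simp only [Fintype.card_coe] at h2
    omega
  have hrep : ∀ y ∈ t, ∃ i ∈ HV p, p i = y := by
    intro y hy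
    obtain ⟨i, hi, hiy⟩ := ht hy
    exact ⟨i, hi, hiy⟩
  rw [Finset.mem_convexHull'] at hxt
  obtain ⟨w, hw0, hw1, hw2⟩ := hxt
  have hxm : ∀ i ∈ HV p, x ≠ i := fun i hi h => hx (h ▸ hi)
  interval_cases hc : t.card
  · rw [Finset.card_eq_zero] at hc
    subst hc
    simp at hw1
  · rw [Finset.card_eq_one] at hc
    obtain ⟨u, rfl⟩ := hc
    obtain ⟨i, hi, rfl⟩ := hrep u (by simp)
    simp only [Finset.sum_singleton] at hw1 hw2
    rw [hw1, one_smul] at hw2
    exact absurd (h.1 hw2).symm (hxm i hi)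
  · rw [Finset.card_eq_two] at hc
    obtain ⟨u, v, huv, rfl⟩ := hc
    obtain ⟨i, hi, rfl⟩ := hrep u (by simp)
    obtain ⟨j, hj, rfl⟩ := hrep v (by simp)
    rw [Finset.sum_pair huv] at hw1 hw2
    have hij : i ≠ j := fun h => huv (by rw [h])
    exfalso
    apply h.2 x i j (hxm i hi) (hxm j hj) hij
    have e1 := congrArg Prod.fst hw2
    have e2 := congrArg Prod.snd hw2
    simp only [Prod.fst_add, Prod.smul_fst, Prod.snd_add, Prod.smul_snd, smul_eq_mul] at e1 e2
    have e3 : w (p i) = 1 - w (p j) := by linarith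
    rw [e3] at e1 e2
    unfold det
    rw [← e1, ← e2]
    ring
  · rw [Finset.card_eq_three] at hc
    obtain ⟨u, v, r, huv, hur, hvr, rfl⟩ := hc
    obtain ⟨i, hi, rfl⟩ := hrep u (by simp)
    obtain ⟨j, hj, rfl⟩ := hrep v (by simp)
    obtain ⟨k, hk, rfl⟩ := hrep r (by simp)
    have hij : i ≠ j := fun h => huv (by rw [h])
    have hik : i ≠ k := fun h => hur (by rw [h])
    have hjk : j ≠ k := fun h => hvr (by rw [h])
    rw [Finset.sum_insert (by simp [huv, hur]), Finset.sum_pair hvr] at hw1 hw2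
    have w1 := hw0 (p i) (by simp)
    have w2 := hw0 (p j) (by simp)
    have w3 := hw0 (p k) (by simp)
    refine ⟨i, hi, j, hj, k, hk, hij, hik, hjk, ?_⟩
    have e1 := congrArg Prod.fst hw2
    have e2 := congrArg Prod.snd hw2
    simp only [Prod.fst_add, Prod.smul_fst, Prod.snd_add, Prod.smul_snd, smul_eq_mul] at e1 e2
    have d0 := h.2 i j k hij hik hjk
    have d1 := h.2 x i j (hxm i hi) (hxm j hj) hij
    have d2 := h.2 x j k (hxm j hj) (hxm k hk) hjk
    have d3 := h.2 x k i (hxm k hk) (hxm i hi) hik.symm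
    have r1 : det (p x) (p i) (p j) = w (p k) * det (p i) (p j) (p k) := by
      have e3 : w (p i) = 1 - w (p j) - w (p k) := by linarith
      rw [e3] at e1 e2
      unfold det
      rw [← e1, ← e2]
      ring
    have r2 : det (p x) (p j) (p k) = w (p i) * det (p i) (p j) (p k) := by
      have e3 : w (p j) = 1 - w (p i) - w (p k) := by linarith
      rw [e3] at e1 e2
      unfold det
      rw [← e1, ← e2]
      ring
    have r3 : det (p x) (p k) (p i) = w (p j) * det (p i) (p j) (p k) := by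
      have e3 : w (p k) = 1 - w (p i) - w (p j) := by linarith
      rw [e3] at e1 e2
      unfold det
      rw [← e1, ← e2]
      ring
    have pos : ∀ {c D : ℝ}, 0 ≤ c → c * D ≠ 0 → decide (0 < c * D) = decide (0 < D) := by
      intro c D hc hne
      have hc' : 0 < c := lt_of_le_of_ne hc (fun h => hne (by rw [← h, zero_mul]))
      rw [decide_eq_decide]
      exact mul_pos_iff_of_pos_left hc'
    refine ⟨?_, ?_, ?_⟩
    · change decide (0 < det (p x) (p i) (p j)) = decide (0 < det (p i) (p j) (p k))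
      rw [r1] at d1 ⊢
      exact pos w3 d1
    · change decide (0 < det (p x) (p j) (p k)) = decide (0 < det (p i) (p j) (p k))
      rw [r2] at d2 ⊢
      exact pos w1 d2
    · change decide (0 < det (p x) (p k) (p i)) = decide (0 < det (p i) (p j) (p k))
      rw [r3] at d3 ⊢
      exact pos w2 d3

theorem hull_HV (h : GP p) : (sysOf p h).Hull (HV p) := ⟨hull_e1 h, hull_e2 h⟩

end

theorem gp_of {n : ℕ} {p : Fin n → ℝ × ℝ} (h : IsRealization p) : GP p :=
  ⟨h.inj, fun i j k h1 h2 h3 => det_ne (h.gp i j k h1 h2 h3)⟩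

/-- **Theorem.** If `p ≺ q` are geometric realizations of `K_n`, then `p` has fewer hull
vertices than `q`. -/
theorem result : ∀ (n : ℕ) (p q : Fin n → ℝ × ℝ), IsRealization p → IsRealization q →
    Prec p q → hullSize p < hullSize q := by
  intro n p q hp hq hpq
  obtain ⟨⟨f, hf, hhom⟩, hniso⟩ := hpq
  by_contra hle
  rw [not_lt] at hle
  apply hniso
  have hbij : Function.Bijective f := Finite.injective_iff_bijective.mp hf
  have hgp : GP p := gp_of hp
  have hgq : GP q := gp_of hq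
  have hgqf : GP (q ∘ f) := by
    refine ⟨hgq.1.comp hf, ?_⟩
    intro i j k h1 h2 h3
    exact hgq.2 (f i) (f j) (f k) (hf.ne h1) (hf.ne h2) (hf.ne h3)
  have hrange : Set.range (q ∘ f) = Set.range q := by
    rw [Set.range_comp, hbij.2.range_eq, Set.image_univ]
  have hcard : (HV (q ∘ f)).card = (HV q).card := by
    apply Finset.card_bij (fun i _ => f i)
    · intro a ha
      rw [mem_HV] at ha ⊢
      rwa [hrange] at ha
    · intro a _ b _ hab
      exact hf hab
    · intro b hb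
      obtain ⟨a, rfl⟩ := hbij.2 b
      refine ⟨a, ?_, rfl⟩
      rw [mem_HV] at hb ⊢
      rw [hrange]
      exact hb
  have hD4 : ∀ {a b c d : Fin n}, D4 a b c d → D4 (f a) (f b) (f c) (f d) := by
    rintro a b c d ⟨h1, h2, h3, h4, h5, h6⟩
    exact ⟨hf.ne h1, hf.ne h2, hf.ne h3, hf.ne h4, hf.ne h5, hf.ne h6⟩
  have hiff : ∀ {a b c d : Fin n}, D4 a b c d →
      (Crosses q (f a) (f b) (f c) (f d) ↔ (sysOf (q ∘ f) hgqf).cross a b c d) := by
    intro a b c d hD
    exact crosses_iff hgq (hD4 hD)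
  have hX : (sysOf p hgp).Sub (sysOf (q ∘ f) hgqf) := by
    intro a b c d hD hc
    rw [← hiff hD]
    rw [← crosses_iff hgp hD] at hc
    exact hhom.cross a b c d hD.1 hD.2.2.2.2.2 hc
  refine ⟨f, hbij, ?_, ?_⟩
  · intro a b
    exact (hf.ne_iff).symm
  · intro a b c d hab hcd
    refine ⟨hhom.cross a b c d hab hcd, ?_⟩
    intro hc
    have hDf := crosses_D4 hgq (hf.ne hab) (hf.ne hcd) hc
    have hD : D4 a b c d := by
      obtain ⟨h1, h2, h3, h4, h5, h6⟩ := hDf
      exact ⟨hab, fun h => h2 (by rw [h]), fun h => h3 (by rw [h]), fun h => h4 (by rw [h]),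
        fun h => h5 (by rw [h]), hcd⟩
    rw [hiff hD] at hc
    rw [crosses_iff hgp hD]
    refine Sys.main (hull_HV hgp) (hull_HV hgqf) hX ?_ hD hc
    rw [hcard, ← hullSize_eq, ← hullSize_eq]
    exact hle

end Pool.Agent.Results.MP_1038e0_co.HullSize
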